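import Mathlib

/-! Rational curves in a hypersurface `{G = 0}` of `P^n` and chains of them. -/

namespace UniqPt

open Polynomial

variable {k : Type*} [Field k] {n : ℕ}

/-- `Curve G d p q` : there is a vector `γ = (γ_0,...,γ_n)` of polynomials in one variable `σ` of
degree at most `d` with `G(γ) = 0` (a rational curve of degree at most `d` in the hypersurface
`{G = 0}` of `P^n`), whose value at `σ = ∞` (vector of the coefficients of `σ^d`) is `p` and whose
value at `σ = 0` is `q`. -/
def Curve (G : MvPolynomial (Fin (n + 1)) k) (d : ℕ) (p q : Fin (n + 1) → k) : Prop :=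
  ∃ γ : Fin (n + 1) → k[X], (∀ i, (γ i).natDegree ≤ d) ∧ MvPolynomial.aeval γ G = 0 ∧
    (∀ i, (γ i).coeff d = p i) ∧ (∀ i, (γ i).coeff 0 = q i)

/-- `Chain G m p q` : the points `[p]` and `[q]` of `P^n` are joined by a connected chain of
rational curves in the hypersurface `{G = 0}` of total degree at most `m` (`m` is the sum of the
bounds of the degrees of the curves of the chain). -/
inductive Chain (G : MvPolynomial (Fin (n + 1)) k) :
    ℕ → (Fin (n + 1) → k) → (Fin (n + 1) → k) → Prop
  | refl (p : Fin (n + 1) → k) (hp : p ≠ 0) (c : k) (hc : c ≠ 0) : Chain G 0 p (c • p)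
  | step {d e : ℕ} {p q r : Fin (n + 1) → k} (hp : p ≠ 0) (hq : q ≠ 0) (h : Curve G d p q)
      (h' : Chain G e q r) : Chain G (d + e) p r

/-- the fibre at `t = b` of a form with coefficients in `k[t]` -/
noncomputable def fib (F : MvPolynomial (Fin (n + 1)) k[X]) (b : k) :
    MvPolynomial (Fin (n + 1)) k := MvPolynomial.map (Polynomial.evalRingHom b) F

end UniqPt
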