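import Mathlib

/-! TASK H (Newton / Hensel iteration). -/

namespace UniqPt

open Polynomial

/-- The constant coefficient of the value of a polynomial at a vector of polynomials. -/
theorem coeff_zero_aeval {k : Type*} [Field k] {ι : Type*} (f : MvPolynomial ι k) (x : ι → k[X])
    (x1 : ι → k) (hx : ∀ i, (x i).coeff 0 = x1 i) :
    (MvPolynomial.aeval x f).coeff 0 = MvPolynomial.eval x1 f := by
  induction f using MvPolynomial.induction_on with
  | C a => simp
  | add p q hp hq => simp [hp, hq]
  | mul_X p i hp => simp [mul_coeff_zero, hp, hx]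

/-- First order expansion modulo `X ^ (N + 1)`. -/
theorem newton_expand {k : Type*} [Field k] {ι : Type*} (f : MvPolynomial ι k) (x1 u : ι → k)
    (x : ι → k[X]) (hx : ∀ i, (x i).coeff 0 = x1 i) (N : ℕ) (hN : 1 ≤ N) :
    X ^ (N + 1) ∣ (MvPolynomial.aeval (fun i => x i + X ^ N * C (u i)) f - MvPolynomial.aeval x f
      - X ^ N * C ((MvPolynomial.aeval (fun i => (C (x1 i) + C (u i) * X : k[X])) f).coeff 1)
        : k[X]) := by
  induction f using MvPolynomial.induction_on with
  | C a =>
    simp
  | add p q hp hq =>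
    have h := dvd_add hp hq
    refine h.trans (dvd_of_eq ?_)
    simp only [map_add, coeff_add]
    ring
  | mul_X p i hp =>
    set P := MvPolynomial.aeval (fun i => x i + X ^ N * C (u i)) p with hP
    set Q := MvPolynomial.aeval x p with hQ
    set R := MvPolynomial.aeval (fun i => (C (x1 i) + C (u i) * X : k[X])) p with hR
    have hc : (R * (C (x1 i) + C (u i) * X)).coeff 1 =
        R.coeff 1 * x1 i + R.coeff 0 * u i := by
      rw [mul_add, coeff_add, coeff_mul_C, ← mul_assoc, coeff_mul_X, coeff_mul_C]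
    have hQ0 : Q.coeff 0 = R.coeff 0 := by
      rw [hQ, hR, coeff_zero_aeval p x x1 hx, coeff_zero_aeval p _ x1 (by simp)]
    have hd1 : X ∣ x i - C (x1 i) := by
      rw [X_dvd_iff, coeff_sub, coeff_C_zero, hx, sub_self]
    have hd2 : X ∣ Q - C (R.coeff 0) := by
      rw [X_dvd_iff, coeff_sub, coeff_C_zero, hQ0, sub_self]
    have hd3 : (X : k[X]) ∣ X ^ N := dvd_pow_self _ (by omega)
    simp only [map_mul, MvPolynomial.aeval_X, ← hP, ← hQ, ← hR]
    rw [hc]
    have key : P * (x i + X ^ N * C (u i)) - Q * x i -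
        X ^ N * C (R.coeff 1 * x1 i + R.coeff 0 * u i) =
        (P - Q - X ^ N * C (R.coeff 1)) * (x i + X ^ N * C (u i)) +
        X ^ N * ((x i - C (x1 i)) + X ^ N * C (u i)) * C (R.coeff 1) +
        X ^ N * (Q - C (R.coeff 0)) * C (u i) := by
      rw [C_add, C_mul, C_mul]
      ring
    rw [key]
    refine dvd_add (dvd_add (hp.mul_right _) ?_) ?_
    · refine Dvd.dvd.mul_right ?_ _
      rw [pow_succ]
      exact mul_dvd_mul_left _ (dvd_add hd1 (hd3.mul_right _))
    · refine Dvd.dvd.mul_right ?_ _
      rw [pow_succ]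
      exact mul_dvd_mul_left _ hd2

/-- The value of a polynomial changes by a multiple of `X ^ N`. -/
theorem dvd_aeval_sub {k : Type*} [Field k] {ι : Type*} (f : MvPolynomial ι k) (u : ι → k)
    (x : ι → k[X]) (N : ℕ) :
    X ^ N ∣ (MvPolynomial.aeval (fun i => x i + X ^ N * C (u i)) f - MvPolynomial.aeval x f
        : k[X]) := by
  induction f using MvPolynomial.induction_on with
  | C a => simp
  | add p q hp hq =>
    refine (dvd_add hp hq).trans (dvd_of_eq ?_)
    simp only [map_add]
    ring
  | mul_X p i hp =>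
    simp only [map_mul, MvPolynomial.aeval_X]
    have key : ∀ P Q : k[X], P * (x i + X ^ N * C (u i)) - Q * x i =
        (P - Q) * (x i + X ^ N * C (u i)) + X ^ N * (Q * C (u i)) := by
      intro P Q
      ring
    rw [key]
    exact dvd_add (hp.mul_right _) (dvd_mul_right _ _)

/-- `f1` vanishes at `x1`, with surjective linearisation `u ↦ (coefficient of ε in f1 (x1 + ε u))`.
Then `f1 + s f0 = 0` has solutions modulo all powers of `s` (`= X`) which reduce to `x1`. -/
theorem newton {k : Type*} [Field k] {ι α : Type*} [Finite ι] [Finite α]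
    (f0 f1 : α → MvPolynomial ι k) (x1 : ι → k)
    (h1 : ∀ a, MvPolynomial.eval x1 (f1 a) = 0)
    (hJ : ∀ w : α → k, ∃ u : ι → k, ∀ a,
      (MvPolynomial.aeval (fun i => (C (x1 i) + C (u i) * X : k[X])) (f1 a)).coeff 1 = w a)
    (N : ℕ) :
    ∃ x : ι → k[X], (∀ i, (x i).coeff 0 = x1 i) ∧
      ∀ a, X ^ N ∣ (MvPolynomial.aeval x (f1 a) + X * MvPolynomial.aeval x (f0 a) : k[X]) := by
  induction N with
  | zero => exact ⟨fun i => C (x1 i), by simp, by simp⟩
  | succ N ih =>
    rcases Nat.eq_zero_or_pos N with hN | hN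
    · subst hN
      refine ⟨fun i => C (x1 i), by simp, fun a => ?_⟩
      rw [zero_add, pow_one, X_dvd_iff, coeff_add,
        coeff_zero_aeval (f1 a) (fun i => C (x1 i)) x1 (by simp), h1]
      simp
    · obtain ⟨x, hx0, hx⟩ := ih
      choose r hr using hx
      obtain ⟨u, hu⟩ := hJ (fun a => - (r a).coeff 0)
      refine ⟨fun i => x i + X ^ N * C (u i), fun i => ?_, fun a => ?_⟩
      · rw [coeff_add, hx0, mul_coeff_zero, coeff_X_pow, if_neg (by omega), zero_mul, add_zero]
      · have e1 := newton_expand (f1 a) x1 u x hx0 N hN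
        rw [hu a] at e1
        have e2 := mul_dvd_mul_left X (dvd_aeval_sub (f0 a) u x N)
        rw [← pow_succ'] at e2
        have e3 : X ^ (N + 1) ∣ X ^ N * (r a - C ((r a).coeff 0)) := by
          rw [pow_succ]
          refine mul_dvd_mul_left _ ?_
          rw [X_dvd_iff, coeff_sub, coeff_C_zero, sub_self]
        refine (dvd_add (dvd_add e1 e2) e3).trans (dvd_of_eq ?_)
        rw [C_neg]
        linear_combination -(hr a)

end UniqPt
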