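import Mathlib

namespace UniqPt

theorem eval₂_smul_homog {σ R S : Type*} [CommSemiring R] [CommSemiring S] (f : R →+* S) (c : S)
    (x : σ → S) {p : MvPolynomial σ R} {d : ℕ} (hp : p.IsHomogeneous d) :
    MvPolynomial.eval₂ f (fun i => c * x i) p = c ^ d * MvPolynomial.eval₂ f x p := by
  classical
  rw [MvPolynomial.eval₂_eq, MvPolynomial.eval₂_eq, Finset.mul_sum]
  apply Finset.sum_congr rfl
  intro m hm
  have hdeg : m.degree = d := by
    by_contra hne
    exact (MvPolynomial.mem_support_iff.mp hm) (hp.coeff_eq_zero hne)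
  have : (∏ i ∈ m.support, (c * x i) ^ m i) = c ^ d * ∏ i ∈ m.support, (x i) ^ m i := by
    rw [← hdeg, Finsupp.degree_apply, ← Finset.prod_pow_eq_pow_sum, ← Finset.prod_mul_distrib]
    apply Finset.prod_congr rfl
    intro i _
    rw [mul_pow]
  rw [this]
  ring

theorem eval_smul_homog {σ S : Type*} [CommSemiring S] (c : S)
    (x : σ → S) {p : MvPolynomial σ S} {d : ℕ} (hp : p.IsHomogeneous d) :
    MvPolynomial.eval (fun i => c * x i) p = c ^ d * MvPolynomial.eval x p := by
  have := eval₂_smul_homog (RingHom.id S) c x hp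
  simpa using this

theorem eval₂_zero_homog {σ R S : Type*} [CommSemiring R] [CommSemiring S] (f : R →+* S)
    {p : MvPolynomial σ R} {d : ℕ} (hd : d ≠ 0) (hp : p.IsHomogeneous d) :
    MvPolynomial.eval₂ f (fun _ => 0) p = 0 := by
  have := eval₂_smul_homog f 0 (fun _ => 0) hp
  rw [zero_pow hd, zero_mul] at this
  simpa using this

end UniqPt
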