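import Mathlib

/-! TASK N (Nullstellensatz). -/

namespace UniqPt

open Polynomial

attribute [local instance] MvPolynomial.algebraMvPolynomial in
/-- If a finite system of polynomial equations over `k[s]` has solutions modulo all powers of `s`
at which `g` is invertible, it has a solution over the algebraic closure of `k(s)` at which `g` is
nonzero.  (If not, then `1 ∈ (f, z g - 1)` over `k(s)` by the Nullstellensatz / Zariski's lemma, so
there is `0 ≠ a(s) ∈ (f, z g - 1)` in `k[s][x, z]`, and `s^N ∣ a(s)` for all `N`.) -/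
theorem exists_alg_point {k : Type*} [Field k] {ι α : Type*} [Finite ι] [Finite α]
    (f : α → MvPolynomial ι k[X]) (g : MvPolynomial ι k[X])
    (h : ∀ N : ℕ, ∃ x : ι → k[X], (∀ a, X ^ N ∣ MvPolynomial.eval x (f a)) ∧
      (MvPolynomial.eval x g).coeff 0 ≠ 0) :
    ∃ x : ι → AlgebraicClosure (RatFunc k),
      (∀ a, MvPolynomial.eval₂ (algebraMap k[X] (AlgebraicClosure (RatFunc k))) x (f a) = 0) ∧
      MvPolynomial.eval₂ (algebraMap k[X] (AlgebraicClosure (RatFunc k))) x g ≠ 0 := by
  classical
  -- the ideal over `k[s]`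
  let S : Set (MvPolynomial (Option ι) k[X]) :=
    insert (MvPolynomial.X none * MvPolynomial.rename some g - 1)
      (Set.range fun a => MvPolynomial.rename some (f a))
  let I : Ideal (MvPolynomial (Option ι) k[X]) := Ideal.span S
  have key : I.map (algebraMap (MvPolynomial (Option ι) k[X])
      (MvPolynomial (Option ι) (RatFunc k))) ≠ ⊤ := by
    rw [IsLocalization.map_algebraMap_ne_top_iff_disjoint
      ((nonZeroDivisors k[X]).map (MvPolynomial.C (σ := Option ι)))]
    rw [Set.disjoint_left]
    rintro _ ⟨a, ha, rfl⟩ haI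
    have ha0 : a ≠ 0 := nonZeroDivisors.ne_zero ha
    obtain ⟨x, hx, hg⟩ := h (a.natDegree + 1)
    set N := a.natDegree + 1 with hN
    have hcop : IsCoprime (X ^ N : k[X]) (MvPolynomial.eval x g) := by
      apply IsCoprime.pow_left
      rw [Polynomial.irreducible_X.coprime_iff_not_dvd, Polynomial.X_dvd_iff]
      exact hg
    obtain ⟨u, z, huz⟩ := hcop
    let q : k[X] →+* k[X] ⧸ Ideal.span {(X ^ N : k[X])} := Ideal.Quotient.mk _
    let y : Option ι → k[X] := fun i => i.elim z x
    let φ : MvPolynomial (Option ι) k[X] →+* k[X] ⧸ Ideal.span {(X ^ N : k[X])} :=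
      q.comp (MvPolynomial.eval y)
    have hren : ∀ p : MvPolynomial ι k[X],
        MvPolynomial.eval y (MvPolynomial.rename some p) = MvPolynomial.eval x p := by
      intro p
      rw [MvPolynomial.eval_rename]
      rfl
    have hI : I ≤ RingHom.ker φ := by
      rw [Ideal.span_le]
      rintro p (rfl | ⟨b, rfl⟩)
      · change φ _ = 0
        change q (MvPolynomial.eval y _) = 0
        rw [map_sub, map_mul, MvPolynomial.eval_X, hren, map_one]
        refine Ideal.Quotient.eq_zero_iff_mem.2 (Ideal.mem_span_singleton.2 ?_)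
        refine ⟨-u, ?_⟩
        change z * _ - 1 = _
        linear_combination huz
      · change q (MvPolynomial.eval y _) = 0
        rw [hren]
        exact Ideal.Quotient.eq_zero_iff_mem.2 (Ideal.mem_span_singleton.2 (hx b))
    have h1 : q (MvPolynomial.eval y (MvPolynomial.C a)) = 0 := hI haI
    rw [MvPolynomial.eval_C] at h1
    have h2 : (X ^ N : k[X]) ∣ a := Ideal.mem_span_singleton.1 (Ideal.Quotient.eq_zero_iff_mem.1 h1)
    have h3 := Polynomial.natDegree_le_of_dvd h2 ha0
    rw [Polynomial.natDegree_X_pow] at h3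
    omega
  obtain ⟨M, hM, hIM⟩ := Ideal.exists_le_maximal _ key
  obtain ⟨x, hx⟩ := MvPolynomial.eq_vanishingIdeal_singleton_of_isMaximal
    (AlgebraicClosure (RatFunc k)) hM
  have hval : ∀ p ∈ S, MvPolynomial.eval₂ (algebraMap k[X] (AlgebraicClosure (RatFunc k))) x p
      = 0 := by
    intro p hp
    have h1 : algebraMap (MvPolynomial (Option ι) k[X]) (MvPolynomial (Option ι) (RatFunc k)) p
        ∈ M := hIM (Ideal.mem_map_of_mem _ (Ideal.subset_span hp))
    rw [hx, MvPolynomial.mem_vanishingIdeal_singleton_iff, MvPolynomial.algebraMap_def,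
      MvPolynomial.aeval_def, MvPolynomial.eval₂_map] at h1
    rw [IsScalarTower.algebraMap_eq k[X] (RatFunc k) (AlgebraicClosure (RatFunc k))]
    exact h1
  have hren : ∀ p : MvPolynomial ι k[X],
      MvPolynomial.eval₂ (algebraMap k[X] (AlgebraicClosure (RatFunc k))) x
        (MvPolynomial.rename some p) =
      MvPolynomial.eval₂ (algebraMap k[X] (AlgebraicClosure (RatFunc k))) (fun i => x (some i))
        p := by
    intro p
    rw [MvPolynomial.eval₂_rename]
    rfl
  refine ⟨fun i => x (some i), fun a => ?_, ?_⟩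
  · rw [← hren]
    exact hval _ (Or.inr ⟨a, rfl⟩)
  · intro h0
    have h1 := hval _ (Or.inl rfl)
    rw [MvPolynomial.eval₂_sub, MvPolynomial.eval₂_mul, hren, h0, mul_zero,
      MvPolynomial.eval₂_one, zero_sub, neg_eq_zero] at h1
    exact one_ne_zero h1

end UniqPt
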