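import Mathlib

/-! TASK V (the place `s = ∞` of the algebraic closure of `k(s)`). -/

namespace UniqPt

open Polynomial

section place

variable (k : Type*) [Field k]

/-- the algebraic closure of `k(s)` -/
abbrev VOm : Type _ := AlgebraicClosure (RatFunc k)

/-- the constants -/
noncomputable def vC : k →+* VOm k := (algebraMap k[X] (VOm k)).comp C

/-- `s` -/
noncomputable def vs : VOm k := algebraMap k[X] (VOm k) X

theorem v_inj : Function.Injective (algebraMap k[X] (VOm k)) := by
  rw [IsScalarTower.algebraMap_eq k[X] (RatFunc k) (VOm k)]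
  exact (algebraMap (RatFunc k) (VOm k)).injective.comp (IsFractionRing.injective k[X] (RatFunc k))

theorem vs_ne : vs k ≠ 0 := by
  intro h
  have := v_inj k (h.trans (map_zero _).symm)
  exact X_ne_zero this

theorem v_eval (f : k[X]) : algebraMap k[X] (VOm k) f = eval₂ (vC k) (vs k) f := by
  conv_lhs => rw [← eval₂_C_X (p := f)]
  rw [hom_eval₂]
  rfl

theorem v_reflect (f : k[X]) (N : ℕ) (hf : f.natDegree ≤ N) :
    eval₂ (vC k) (vs k)⁻¹ (reflect N f) * vs k ^ N = algebraMap k[X] (VOm k) f := by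
  have := invertibleOfNonzero (vs_ne k)
  have h := eval₂_reflect_mul_pow (vC k) (vs k) N f hf
  rw [invOf_eq_inv] at h
  rw [h, v_eval]

theorem v_inj' (f : k[X]) (h : eval₂ (vC k) (vs k)⁻¹ f = 0) : f = 0 := by
  have := invertibleOfNonzero (inv_ne_zero (vs_ne k))
  have h1 := (eval₂_reverse_eq_zero_iff (vC k) (vs k)⁻¹ f).2 h
  rw [invOf_eq_inv, inv_inv, ← v_eval] at h1
  have h2 := v_inj k (h1.trans (map_zero _).symm)
  simpa using h2

/-- evaluation at `s⁻¹` -/
noncomputable def vpsi : k[X] →+* VOm k := eval₂RingHom (vC k) (vs k)⁻¹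

/-- a valuation ring containing `k[s⁻¹]` in which `s⁻¹` is not a unit -/
theorem v_exists : ∃ B : ValuationSubring (VOm k), (∀ f : k[X], vpsi k f ∈ B) ∧
    (vs k)⁻¹ ∈ B.nonunits := by
  have hmem : (vs k)⁻¹ ∈ (vpsi k).range := ⟨X, by simp [vpsi]⟩
  obtain ⟨B, hB1, hB2⟩ := Ideal.image_subset_nonunits_valuationSubring
    (A := (vpsi k).range) (Ideal.span {⟨(vs k)⁻¹, hmem⟩}) (by
      intro h
      rw [Ideal.span_singleton_eq_top] at h
      obtain ⟨⟨a, ⟨f, hf⟩⟩, ha⟩ := h.exists_left_inv
      have h1 : a * (vs k)⁻¹ = 1 := congrArg Subtype.val ha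
      rw [← hf] at h1
      have h2 : eval₂ (vC k) (vs k)⁻¹ (f * X - 1) = 0 := by
        have h3 : vpsi k f = eval₂ (vC k) (vs k)⁻¹ f := rfl
        rw [h3] at h1
        rw [eval₂_sub, eval₂_mul, eval₂_X, eval₂_one, h1, sub_self]
      have h4 := v_inj' k _ h2
      have h5 := congrArg (eval 0) h4
      simp at h5)
  refine ⟨B, fun f => hB1 ⟨f, rfl⟩, hB2 ⟨⟨(vs k)⁻¹, hmem⟩, ?_, rfl⟩⟩
  exact Ideal.subset_span rfl

/-- the polynomials in `s⁻¹`, as elements of the valuation ring -/
noncomputable def vpsiB (B : ValuationSubring (VOm k)) (hB : ∀ f : k[X], vpsi k f ∈ B) :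
    k[X] →+* B := (vpsi k).codRestrict B.toSubring hB

/-- the constants in the residue field -/
noncomputable def vrho (B : ValuationSubring (VOm k)) (hB : ∀ f : k[X], vpsi k f ∈ B) :
    k →+* IsLocalRing.ResidueField B :=
  ((IsLocalRing.residue B).comp (vpsiB k B hB)).comp C

theorem vres (B : ValuationSubring (VOm k)) (hB : ∀ f : k[X], vpsi k f ∈ B)
    (hs : (vs k)⁻¹ ∈ B.nonunits) (f : k[X]) :
    IsLocalRing.residue B (vpsiB k B hB f) = vrho k B hB (f.coeff 0) := by
  have hX : IsLocalRing.residue B (vpsiB k B hB X) = 0 := by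
    rw [IsLocalRing.residue_eq_zero_iff]
    have h1 : ((vpsiB k B hB X : B) : VOm k) = (vs k)⁻¹ := by
      show vpsi k X = _
      simp [vpsi]
    rw [← ValuationSubring.coe_mem_nonunits_iff, h1]
    exact hs
  have h2 : (IsLocalRing.residue B).comp (vpsiB k B hB) =
      eval₂RingHom (vrho k B hB) 0 := by
    apply Polynomial.ringHom_ext'
    · ext c
      simp [vrho]
    · simpa using hX
  have h3 := congrArg (fun g => g f) h2
  simp only [RingHom.comp_apply, coe_eval₂RingHom, eval₂_at_zero] at h3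
  exact h3

theorem v_surj [IsAlgClosed k] (B : ValuationSubring (VOm k)) (hB : ∀ f : k[X], vpsi k f ∈ B)
    (hs : (vs k)⁻¹ ∈ B.nonunits) : Function.Surjective (vrho k B hB) := by
  let := (vrho k B hB).toAlgebra
  have hint : Algebra.IsIntegral k (IsLocalRing.ResidueField B) := by
    constructor
    intro x
    obtain ⟨z, rfl⟩ := IsLocalRing.residue_surjective x
    rw [← isAlgebraic_iff_isIntegral]
    have halg : IsAlgebraic k[X] (z : VOm k) := by
      rw [IsFractionRing.isAlgebraic_iff k[X] (RatFunc k) (VOm k)]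
      exact Algebra.IsAlgebraic.isAlgebraic _
    obtain ⟨H, hH0, hH⟩ := halg
    set d := H.support.sup (fun i => (H.coeff i).natDegree) with hd
    obtain ⟨i0, hi0, hid⟩ := Finset.exists_mem_eq_sup H.support
      (nonempty_support_iff.2 hH0) (fun i => (H.coeff i).natDegree)
    refine ⟨∑ i ∈ H.support, monomial i ((H.coeff i).coeff d), ?_, ?_⟩
    · intro h0
      have h1 := congrArg (fun g => coeff g i0) h0
      simp only [finsetSum_coeff, coeff_monomial, coeff_zero] at h1
      rw [Finset.sum_ite_eq' H.support i0, if_pos hi0, hd, hid] at h1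
      rw [mem_support_iff] at hi0
      exact hi0 (leadingCoeff_eq_zero.1 h1)
    · have h1 : ∑ i ∈ H.support, vpsiB k B hB (reflect d (H.coeff i)) * z ^ i = 0 := by
        apply Subtype.ext
        push_cast
        have h2 : (∑ i ∈ H.support, vpsi k (reflect d (H.coeff i)) * (z : VOm k) ^ i) *
            vs k ^ d = 0 := by
          rw [Finset.sum_mul]
          rw [aeval_def, eval₂_eq_sum, Polynomial.sum_def] at hH
          rw [← hH]
          apply Finset.sum_congr rfl
          intro i hi
          have h3 : (H.coeff i).natDegree ≤ d := by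
            rw [hd]
            exact Finset.le_sup (f := fun i => (H.coeff i).natDegree) hi
          rw [← v_reflect k (H.coeff i) d h3]
          show eval₂ (vC k) (vs k)⁻¹ _ * _ * _ = _
          ring
        exact (mul_eq_zero.1 h2).resolve_right (pow_ne_zero _ (vs_ne k))
      have h4 := congrArg (IsLocalRing.residue B) h1
      rw [map_sum, map_zero] at h4
      rw [map_sum, ← h4]
      apply Finset.sum_congr rfl
      intro i _
      rw [map_mul, map_pow, vres k B hB hs, aeval_monomial, coeff_reflect, revAt_le (Nat.zero_le d),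
        Nat.sub_zero]
      rfl
  exact (IsAlgClosed.algebraMap_bijective_of_isIntegral (k := k)).2

end place

/-- There is a valuation ring `V` of the algebraic closure `Ω` of `k(s)` which contains `k` and
`s⁻¹`, with residue map `red : V → k` (identity on `k`), `red (s⁻¹) = 0`, and maximal ideal the
kernel of `red`.  (Take `V` dominating the local ring of `k[s⁻¹]` at `0`
(`LocalSubring.exists_le_valuationSubring` or similar); an element `z` of `V` is algebraic over
`k(s)`: `G(s⁻¹, z) = 0` with `G ∈ k[η][Y]` not divisible by `η`, so its residue is algebraic over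
`k`, hence in `k`.) -/
theorem exists_place (k : Type*) [Field k] [IsAlgClosed k] :
    ∃ (V : ValuationSubring (AlgebraicClosure (RatFunc k))) (red : V →+* k),
      (∀ a : V, IsUnit a ↔ red a ≠ 0) ∧
      (∀ c : k, ∃ h : algebraMap k[X] (AlgebraicClosure (RatFunc k)) (C c) ∈ V,
        red ⟨algebraMap k[X] (AlgebraicClosure (RatFunc k)) (C c), h⟩ = c) ∧
      ∃ h : (algebraMap k[X] (AlgebraicClosure (RatFunc k)) X)⁻¹ ∈ V,
        red ⟨(algebraMap k[X] (AlgebraicClosure (RatFunc k)) X)⁻¹, h⟩ = 0 := by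
  obtain ⟨B, hB, hs⟩ := v_exists k
  have hbij : Function.Bijective (vrho k B hB) := ⟨(vrho k B hB).injective, v_surj k B hB hs⟩
  let e := RingEquiv.ofBijective (vrho k B hB) hbij
  refine ⟨B, (e.symm : IsLocalRing.ResidueField B →+* k).comp (IsLocalRing.residue B), ?_, ?_, ?_⟩
  · intro a
    rw [← IsLocalRing.residue_ne_zero_iff_isUnit]
    simp
  · intro c
    have h1 : vpsi k (C c) = algebraMap k[X] (VOm k) (C c) := by
      simp [vpsi, vC]
    refine ⟨h1 ▸ hB (C c), ?_⟩
    have h2 : (⟨algebraMap k[X] (VOm k) (C c), h1 ▸ hB (C c)⟩ : B) = vpsiB k B hB (C c) :=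
      Subtype.ext h1.symm
    rw [h2, RingHom.comp_apply]
    show e.symm (IsLocalRing.residue B (vpsiB k B hB (C c))) = c
    rw [RingEquiv.symm_apply_eq]
    rfl
  · have h1 : vpsi k X = (vs k)⁻¹ := by simp [vpsi]
    refine ⟨h1 ▸ hB X, ?_⟩
    have h2 : (⟨(algebraMap k[X] (VOm k) X)⁻¹, h1 ▸ hB X⟩ : B) = vpsiB k B hB X :=
      Subtype.ext h1.symm
    rw [h2, RingHom.comp_apply, vres k B hB hs]
    simp

end UniqPt
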