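import Mathlib
import Pool.Agent.LibUniqPt67.H
import Pool.Agent.LibUniqPt67.N
import Pool.Agent.LibUniqPt67.V
import Pool.Agent.LibUniqPt67.Hom

/-! Degeneration lemma. -/

namespace UniqPt

open Polynomial

universe u

theorem pow_mem_valuationSubring {Ω : Type*} [Field Ω] (V : ValuationSubring Ω) (π : Ω) (N : ℕ)
    (hN : 0 < N) (h : π ^ N ∈ V) : π ∈ V := by
  rw [← V.valuation_le_one_iff] at h ⊢
  rw [map_pow] at h
  by_contra hc
  rw [not_le] at hc
  exact absurd h (not_le.mpr (one_lt_pow₀ hc hN.ne'))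

theorem exists_scale {Ω : Type*} [Field Ω] (V : ValuationSubring Ω) {ι : Type*} [Finite ι]
    (x : ι → Ω) (hx : ∃ i, x i ≠ 0) : ∃ i0, x i0 ≠ 0 ∧ ∀ i, x i / x i0 ∈ V := by
  classical
  obtain ⟨i1, h1⟩ := hx
  haveI : Nonempty ι := ⟨i1⟩
  haveI := Fintype.ofFinite ι
  obtain ⟨i0, -, h0⟩ := Finset.exists_max_image Finset.univ (fun i => V.valuation (x i))
    ⟨i1, Finset.mem_univ _⟩
  have hne : x i0 ≠ 0 := by
    intro hz
    have := h0 i1 (Finset.mem_univ _)
    rw [hz, map_zero, le_zero_iff, map_eq_zero] at this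
    exact h1 this
  refine ⟨i0, hne, fun i => ?_⟩
  rw [← V.valuation_le_one_iff, map_div₀]
  have hpos : 0 < V.valuation (x i0) := by
    rw [zero_lt_iff]
    simpa using hne
  exact div_le_one_of_le₀ (h0 i (Finset.mem_univ _)) hpos.le

/-- Degeneration.  `f0 + η f1` with `η` in the maximal ideal of a valuation ring `R` with residue
field `k`. -/
theorem degen {k : Type u} [Field k] [IsAlgClosed k] {ι α β : Type} [Finite ι] [Finite α] [Finite β]
    (f0 f1 : α → MvPolynomial ι k) (d : α → ℕ)
    (hf0 : ∀ a, (f0 a).IsHomogeneous (d a)) (hf1 : ∀ a, (f1 a).IsHomogeneous (d a))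
    (ν : β → MvPolynomial ι k) (hν : ∀ b, (ν b).IsHomogeneous 1)
    (x1 : ι → k) (h1 : ∀ a, MvPolynomial.eval x1 (f1 a) = 0)
    (hν1 : ∀ b, MvPolynomial.eval x1 (ν b) ≠ 0) (hβ : Nonempty β)
    (hJ : ∀ w : α → k, ∃ u : ι → k, ∀ a,
      (MvPolynomial.aeval (fun i => (C (x1 i) + C (u i) * X : k[X])) (f1 a)).coeff 1 = w a) :
    ∃ (R : Type u) (_ : CommRing R) (_ : IsDomain R) (_ : ValuationRing R) (_ : Algebra k R)
      (red : R →ₐ[k] k), (∀ a : R, IsUnit a ↔ red a ≠ 0) ∧
      (∀ (y : R) (N : ℕ), 0 < N → ∃ π : R, π ^ N = y) ∧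
      ∃ η : R, red η = 0 ∧ ∃ x : ι → R,
        (∀ a, MvPolynomial.aeval x (f0 a) + η * MvPolynomial.aeval x (f1 a) = 0) ∧
        (∀ b, MvPolynomial.aeval x (ν b) ≠ 0) ∧ ∃ i, red (x i) ≠ 0 := by
  classical
  have := Fintype.ofFinite β
  -- the algebraic point
  obtain ⟨x, hx, hg⟩ := exists_alg_point
    (fun a => MvPolynomial.map (C : k →+* k[X]) (f1 a) +
      MvPolynomial.C X * MvPolynomial.map (C : k →+* k[X]) (f0 a))
    (∏ b, MvPolynomial.map (C : k →+* k[X]) (ν b)) (by
      intro N
      obtain ⟨x, hx0, hx⟩ := newton f0 f1 x1 h1 hJ N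
      refine ⟨x, fun a => ?_, ?_⟩
      · have := hx a
        simpa [MvPolynomial.eval_map, MvPolynomial.aeval_def] using this
      · rw [map_prod]
        have key : ∀ b, (MvPolynomial.eval x (MvPolynomial.map (C : k →+* k[X]) (ν b))).coeff 0 =
            MvPolynomial.eval x1 (ν b) := by
          intro b
          rw [MvPolynomial.eval_map, ← Polynomial.constantCoeff_apply,
            MvPolynomial.hom_eval₂]
          have h2 : (Polynomial.constantCoeff.comp (C : k →+* k[X])) = RingHom.id k := by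
            ext c; simp
          have h3 : (fun i => Polynomial.constantCoeff (x i)) = x1 := by
            funext i
            simp [hx0 i]
          rw [h2, MvPolynomial.eval₂_id]
          show MvPolynomial.eval (fun i => Polynomial.constantCoeff (x i)) _ = _
          rw [h3]
        rw [← Polynomial.constantCoeff_apply, map_prod, Finset.prod_ne_zero_iff]
        intro b _
        rw [Polynomial.constantCoeff_apply, key]
        exact hν1 b)
  obtain ⟨V, red0, hunit, hconst, hη, hηred⟩ := exists_place k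
  -- k-algebra structures
  let φ : k →+* AlgebraicClosure (RatFunc k) :=
    (algebraMap k[X] (AlgebraicClosure (RatFunc k))).comp C
  have hs0 : algebraMap k[X] (AlgebraicClosure (RatFunc k)) X ≠ 0 := by
    have hinj : Function.Injective (algebraMap k[X] (AlgebraicClosure (RatFunc k))) := by
      rw [IsScalarTower.algebraMap_eq k[X] (RatFunc k) (AlgebraicClosure (RatFunc k))]
      exact (algebraMap (RatFunc k) (AlgebraicClosure (RatFunc k))).injective.comp
        (RatFunc.algebraMap_injective k)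
    rw [Ne, map_eq_zero_iff _ hinj]
    exact X_ne_zero
  let ψ : k →+* V :=
    { toFun := fun c => ⟨φ c, (hconst c).1⟩
      map_one' := by ext; simp
      map_mul' := by intro a b; ext; simp
      map_zero' := by ext; simp
      map_add' := by intro a b; ext; simp }
  let algV : Algebra k V := ψ.toAlgebra
  let red : V →ₐ[k] k :=
    { red0 with
      commutes' := by
        intro c
        exact (hconst c).2 }
  -- evaluate: equations in Ω
  have hxa : ∀ a, MvPolynomial.eval₂ φ x (f1 a) +
      algebraMap k[X] (AlgebraicClosure (RatFunc k)) X * MvPolynomial.eval₂ φ x (f0 a) = 0 := by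
    intro a
    have := hx a
    rw [MvPolynomial.eval₂_add, MvPolynomial.eval₂_mul, MvPolynomial.eval₂_C,
      MvPolynomial.eval₂_map, MvPolynomial.eval₂_map] at this
    exact this
  have hgb : ∀ b, MvPolynomial.eval₂ φ x (ν b) ≠ 0 := by
    intro b
    rw [MvPolynomial.eval₂_prod, Finset.prod_ne_zero_iff] at hg
    have := hg b (Finset.mem_univ _)
    rw [MvPolynomial.eval₂_map] at this
    exact this
  have hxne : ∃ i, x i ≠ 0 := by
    by_contra hcon
    push Not at hcon
    obtain ⟨b⟩ := hβ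
    apply hgb b
    have hx0 : x = fun _ => 0 := funext hcon
    rw [hx0]
    exact eval₂_zero_homog φ one_ne_zero (hν b)
  obtain ⟨i0, hi0, hi⟩ := exists_scale V x hxne
  let x' : ι → V := fun i => ⟨x i / x i0, hi i⟩
  have hcoe : ∀ p : MvPolynomial ι k, ((MvPolynomial.aeval x' p : V) :
      AlgebraicClosure (RatFunc k)) = MvPolynomial.eval₂ φ (fun i => (x i0)⁻¹ * x i) p := by
    intro p
    have h4 := MvPolynomial.hom_eval₂ p (algebraMap k V) (V.subtype) x'
    have h5 : V.subtype.comp (algebraMap k V) = φ := by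
      ext c; rfl
    have h6 : (fun i => V.subtype (x' i)) = (fun i => (x i0)⁻¹ * x i) := by
      funext i
      show x i / x i0 = _
      rw [div_eq_inv_mul]
    rw [h5] at h4
    rw [← h6, ← h4]
    rfl
  refine ⟨V, inferInstance, inferInstance, inferInstance, algV, red, hunit, ?_,
    ⟨(algebraMap k[X] (AlgebraicClosure (RatFunc k)) X)⁻¹, hη⟩, hηred, x', ?_, ?_, i0, ?_⟩
  · intro y N hN
    obtain ⟨π, hπ⟩ := IsAlgClosed.exists_pow_nat_eq (y : AlgebraicClosure (RatFunc k)) hN
    have hm : π ∈ V := pow_mem_valuationSubring V π N hN (by rw [hπ]; exact y.2)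
    exact ⟨⟨π, hm⟩, Subtype.ext (by simpa using hπ)⟩
  · intro a
    apply Subtype.ext
    show ((MvPolynomial.aeval x' (f0 a) : V) : AlgebraicClosure (RatFunc k)) +
      (algebraMap k[X] (AlgebraicClosure (RatFunc k)) X)⁻¹ *
        ((MvPolynomial.aeval x' (f1 a) : V) : AlgebraicClosure (RatFunc k)) = 0
    rw [hcoe, hcoe, eval₂_smul_homog φ _ x (hf0 a), eval₂_smul_homog φ _ x (hf1 a)]
    have h7 := hxa a
    have h8 : MvPolynomial.eval₂ φ x (f0 a) =
        -((algebraMap k[X] (AlgebraicClosure (RatFunc k)) X)⁻¹ *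
          MvPolynomial.eval₂ φ x (f1 a)) := by
      have h9 : MvPolynomial.eval₂ φ x (f1 a) =
        -(algebraMap k[X] (AlgebraicClosure (RatFunc k)) X * MvPolynomial.eval₂ φ x (f0 a)) :=
        eq_neg_of_add_eq_zero_left h7
      rw [h9, mul_neg, neg_neg, inv_mul_cancel_left₀ hs0]
    rw [h8]
    ring
  · intro b hb
    have h10 : ((MvPolynomial.aeval x' (ν b) : V) : AlgebraicClosure (RatFunc k)) = 0 := by
      rw [hb]; rfl
    rw [hcoe, eval₂_smul_homog φ _ x (hν b), pow_one] at h10
    rcases mul_eq_zero.mp h10 with h11 | h11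
    · exact inv_ne_zero hi0 h11
    · exact hgb b h11
  · have h12 : x' i0 = 1 := by
      apply Subtype.ext
      show x i0 / x i0 = 1
      exact div_self hi0
    rw [h12, map_one]
    exact one_ne_zero

end UniqPt
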