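import Mathlib
import Pool.Agent.LibUniqPt67.Defs

/-! TASK C (chain lemma). -/

namespace UniqPt

open scoped PowerSeries

/-- Values of a form at a multiple of a vector. -/
theorem eval₂_mul_vec {R S : Type*} [CommSemiring R] [CommSemiring S] {n d : ℕ} (f : R →+* S)
    (F : MvPolynomial (Fin n) R) (hF : F.IsHomogeneous d) (c : S) (x : Fin n → S) :
    MvPolynomial.eval₂ f (fun i => c * x i) F = c ^ d * MvPolynomial.eval₂ f x F := by
  rw [MvPolynomial.eval₂_eq', MvPolynomial.eval₂_eq', Finset.mul_sum]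
  refine Finset.sum_congr rfl fun m hm => ?_
  have hd : ∑ i, m i = d := by
    have h1 := hF (MvPolynomial.mem_support_iff.1 hm)
    rw [← h1, Finsupp.weight_apply, Finsupp.sum_fintype _ _ (fun i => by simp)]
    simp
  simp only [mul_pow, Finset.prod_mul_distrib]
  rw [Finset.prod_pow_eq_pow_sum, hd]
  ring

/-- In a valuation ring, a nonzero vector has a nonzero coordinate dividing all the others. -/
theorem exists_dvd_coord {R : Type*} [CommRing R] [IsDomain R] [ValuationRing R] {ι : Type*}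
    (s : Finset ι) (v : ι → R) (h : ∃ i ∈ s, v i ≠ 0) :
    ∃ i ∈ s, v i ≠ 0 ∧ ∀ j ∈ s, v i ∣ v j := by
  classical
  induction s using Finset.induction_on with
  | empty => obtain ⟨i, hi, _⟩ := h; simp at hi
  | insert a s ha ih =>
    by_cases hs : ∃ i ∈ s, v i ≠ 0
    · obtain ⟨i, hi, hi0, hd⟩ := ih hs
      by_cases hva : v a = 0
      · refine ⟨i, Finset.mem_insert_of_mem hi, hi0, fun j hj => ?_⟩
        rcases Finset.mem_insert.1 hj with rfl | hj
        · rw [hva]; exact dvd_zero _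
        · exact hd j hj
      · rcases ValuationRing.dvd_total (v i) (v a) with h1 | h1
        · refine ⟨i, Finset.mem_insert_of_mem hi, hi0, fun j hj => ?_⟩
          rcases Finset.mem_insert.1 hj with rfl | hj
          · exact h1
          · exact hd j hj
        · refine ⟨a, Finset.mem_insert_self _ _, hva, fun j hj => ?_⟩
          rcases Finset.mem_insert.1 hj with rfl | hj
          · exact dvd_rfl
          · exact h1.trans (hd j hj)
    · push Not at hs
      obtain ⟨i, hi, hi0⟩ := h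
      rcases Finset.mem_insert.1 hi with rfl | hi'
      · refine ⟨i, hi, hi0, fun j hj => ?_⟩
        rcases Finset.mem_insert.1 hj with rfl | hj
        · exact dvd_rfl
        · rw [hs j hj]; exact dvd_zero _
      · exact absurd (hs i hi') hi0

/-- The element `π` of the rescaling. -/
theorem chain_exists_scale {k R : Type*} [Field k] [CommRing R] [IsDomain R] [ValuationRing R]
    (red : R →+* k) (hred : ∀ a : R, IsUnit a ↔ red a ≠ 0)
    (hroot : ∀ (y : R) (N : ℕ), 0 < N → ∃ π : R, π ^ N = y) {n : ℕ} (ρ : ℕ)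
    (v : ℕ → Fin (n + 1) → R) (hlow : ∀ j < ρ, ∀ i, red (v j i) = 0) (hρ : 0 < ρ)
    (h0 : ∃ i, v 0 i ≠ 0) :
    ∃ π : R, π ≠ 0 ∧ red π = 0 ∧ (∀ j < ρ, ∀ i, π ^ (ρ - j) ∣ v j i) ∧
      ∃ j < ρ, ∃ i, v j i = π ^ (ρ - j) := by
  classical
  have key : ∀ j : ℕ, ∃ π : R, j < ρ → (π ≠ 0 ↔ ∃ i, v j i ≠ 0) ∧
      (∀ i, π ^ (ρ - j) ∣ v j i) ∧ ∃ i, v j i = π ^ (ρ - j) := by
    intro j
    by_cases hj : j < ρ
    · by_cases hne : ∃ i, v j i ≠ 0
      · obtain ⟨i, hi⟩ := hne
        obtain ⟨i, _, hi0, hd⟩ := exists_dvd_coord Finset.univ (v j) ⟨i, Finset.mem_univ i, hi⟩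
        obtain ⟨π, hπ⟩ := hroot (v j i) (ρ - j) (by omega)
        refine ⟨π, fun _ => ⟨⟨fun _ => ⟨i, hi0⟩, fun _ h => hi0 ?_⟩, fun i' => ?_, i, hπ.symm⟩⟩
        · rw [← hπ, h, zero_pow (by omega)]
        · rw [hπ]; exact hd i' (Finset.mem_univ i')
      · push Not at hne
        refine ⟨0, fun _ => ⟨⟨fun h => absurd rfl h, fun ⟨i, hi⟩ => absurd (hne i) hi⟩,
          fun i => ?_, 0, ?_⟩⟩
        · rw [hne i]; exact dvd_zero _
        · rw [hne 0, zero_pow (by omega)]
    · exact ⟨0, fun h => absurd h hj⟩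
  choose p hp using key
  obtain ⟨j, hjm, hj0, hjd⟩ := exists_dvd_coord (Finset.range ρ) p
    ⟨0, Finset.mem_range.2 hρ, ((hp 0 hρ).1).2 h0⟩
  have hj := Finset.mem_range.1 hjm
  refine ⟨p j, hj0, ?_, fun j' hj' i => ?_, j, hj, (hp j hj).2.2⟩
  · obtain ⟨i, hi⟩ := (hp j hj).2.2
    have h1 := hlow j hj i
    rw [hi, map_pow] at h1
    exact eq_zero_of_pow_eq_zero h1
  · exact (pow_dvd_pow_of_dvd (hjd j' (Finset.mem_range.2 hj')) _).trans ((hp j' hj').2.1 i)

/-- One step of the induction. -/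
theorem chain_step {k R : Type*} [Field k] [CommRing R] [IsDomain R] [ValuationRing R]
    (red : R →+* k) (hred : ∀ a : R, IsUnit a ↔ red a ≠ 0)
    (hroot : ∀ (y : R) (N : ℕ), 0 < N → ∃ π : R, π ^ N = y)
    {n d : ℕ} (F : MvPolynomial (Fin (n + 1)) R⟦X⟧) (hF : F.IsHomogeneous d)
    (G : MvPolynomial (Fin (n + 1)) k)
    (hG : MvPolynomial.map (red.comp (PowerSeries.constantCoeff (R := R))) F = G)
    (ρ : ℕ) (hρ : 0 < ρ) (x : Fin (n + 1) → R⟦X⟧) (hx : MvPolynomial.eval x F = 0)
    (hlow : ∀ j < ρ, ∀ i, red (PowerSeries.coeff j (x i)) = 0)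
    (w : Fin (n + 1) → k) (hw : ∀ i, red (PowerSeries.coeff ρ (x i)) = w i) (hw0 : w ≠ 0)
    (h0 : ∃ i, PowerSeries.coeff 0 (x i) ≠ 0) :
    ∃ (F1 : MvPolynomial (Fin (n + 1)) R⟦X⟧) (x1 : Fin (n + 1) → R⟦X⟧) (c : R) (ρ1 : ℕ)
      (w1 : Fin (n + 1) → k), F1.IsHomogeneous d ∧
      MvPolynomial.map (red.comp (PowerSeries.constantCoeff (R := R))) F1 = G ∧
      MvPolynomial.eval x1 F1 = 0 ∧ c ≠ 0 ∧ ρ1 < ρ ∧
      (∀ i, PowerSeries.coeff 0 (x i) = c * PowerSeries.coeff 0 (x1 i)) ∧
      (∀ j < ρ1, ∀ i, red (PowerSeries.coeff j (x1 i)) = 0) ∧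
      (∀ i, red (PowerSeries.coeff ρ1 (x1 i)) = w1 i) ∧ w1 ≠ 0 ∧
      Curve G (ρ - ρ1) w w1 := by
  classical
  obtain ⟨π, hπ0, hπr, hdvd, j0, hj0, i0, hji⟩ := chain_exists_scale red hred hroot ρ
    (fun j i => PowerSeries.coeff j (x i)) hlow hρ h0
  -- the new vector
  have hex : ∀ (i : Fin (n + 1)) (j : ℕ), ∃ a : R,
      π ^ ρ * a = π ^ j * PowerSeries.coeff j (x i) ∧ (ρ < j → red a = 0) ∧
        (j = ρ → a = PowerSeries.coeff j (x i)) := by
    intro i j
    rcases lt_trichotomy j ρ with hj | hj | hj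
    · obtain ⟨a, ha⟩ := hdvd j hj i
      refine ⟨a, ?_, fun h => absurd h (by omega), fun h => absurd h (by omega)⟩
      rw [ha, ← mul_assoc, ← pow_add]
      congr 2
      omega
    · subst hj
      exact ⟨_, rfl, fun h => absurd h (lt_irrefl _), fun _ => rfl⟩
    · refine ⟨π ^ (j - ρ) * PowerSeries.coeff j (x i), ?_, fun _ => ?_,
        fun h => absurd h (by omega)⟩
      · rw [← mul_assoc, ← pow_add]
        congr 2
        omega
      · rw [map_mul, map_pow, hπr, zero_pow (by omega), zero_mul]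
  choose a ha1 ha2 ha3 using hex
  set x1 : Fin (n + 1) → R⟦X⟧ := fun i => PowerSeries.mk (a i) with hx1
  set F1 : MvPolynomial (Fin (n + 1)) R⟦X⟧ := MvPolynomial.map (PowerSeries.rescale π) F with hF1
  have hcx1 : ∀ i j, PowerSeries.coeff j (x1 i) = a i j := fun i j => by
    simp [hx1]
  have hresc : ∀ i, PowerSeries.rescale π (x i) = PowerSeries.C (π ^ ρ) * x1 i := by
    intro i
    ext j
    rw [PowerSeries.coeff_rescale, PowerSeries.coeff_C_mul, hcx1, ha1]
  have hF1h : F1.IsHomogeneous d := hF.map _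
  have hF1x : MvPolynomial.eval x1 F1 = 0 := by
    have h1 : MvPolynomial.eval (fun i => PowerSeries.C (π ^ ρ) * x1 i) F1 = 0 := by
      have h2 := congrArg (PowerSeries.rescale π) hx
      rw [map_zero] at h2
      have h3 : MvPolynomial.eval (fun i => PowerSeries.C (π ^ ρ) * x1 i) F1
          = PowerSeries.rescale π (MvPolynomial.eval x F) := by
        rw [hF1, MvPolynomial.eval_map, ← MvPolynomial.coe_eval₂Hom, MvPolynomial.coe_eval₂Hom,
          MvPolynomial.eval, MvPolynomial.coe_eval₂Hom, MvPolynomial.eval₂_comp_left]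
        congr 1
        funext i
        exact (hresc i).symm
      rw [h3, h2]
    have h4 := eval₂_mul_vec (RingHom.id _) F1 hF1h (PowerSeries.C (π ^ ρ)) x1
    have h5 : MvPolynomial.eval₂ (RingHom.id _) (fun i => PowerSeries.C (π ^ ρ) * x1 i) F1
        = MvPolynomial.eval (fun i => PowerSeries.C (π ^ ρ) * x1 i) F1 := rfl
    have h6 : MvPolynomial.eval₂ (RingHom.id _) x1 F1 = MvPolynomial.eval x1 F1 := rfl
    rw [h5, h1, h6] at h4
    rcases mul_eq_zero.1 h4.symm with h7 | h7
    · exfalso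
      have h8 := eq_zero_of_pow_eq_zero h7
      have h9 : π ^ ρ = 0 := by
        have := congrArg (PowerSeries.coeff 0) h8
        simpa using this
      exact hπ0 (eq_zero_of_pow_eq_zero h9)
    · exact h7
  have hcc : (PowerSeries.constantCoeff (R := R)).comp (PowerSeries.rescale π)
      = PowerSeries.constantCoeff (R := R) := by
    ext s
    rw [RingHom.comp_apply, ← PowerSeries.coeff_zero_eq_constantCoeff_apply,
      PowerSeries.coeff_rescale, pow_zero, one_mul, PowerSeries.coeff_zero_eq_constantCoeff_apply]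
  have hF1G : MvPolynomial.map (red.comp (PowerSeries.constantCoeff (R := R))) F1 = G := by
    rw [hF1, MvPolynomial.map_map, RingHom.comp_assoc, hcc, hG]
  -- the reduction
  set γ : Fin (n + 1) → Polynomial k := fun i =>
    ∑ j ∈ Finset.range (ρ + 1), Polynomial.monomial j (red (a i j)) with hγ
  have hγc : ∀ i j, (γ i).coeff j = red (a i j) := by
    intro i j
    simp only [hγ, Polynomial.finsetSum_coeff, Polynomial.coeff_monomial]
    rw [Finset.sum_ite_eq' (Finset.range (ρ + 1)) j (fun j => red (a i j))]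
    split_ifs with hj
    · rfl
    · exact (ha2 i j (by rw [Finset.mem_range] at hj; omega)).symm
  have hγps : ∀ i, ((γ i : Polynomial k) : PowerSeries k) = PowerSeries.map red (x1 i) := by
    intro i
    ext j
    rw [Polynomial.coeff_coe, PowerSeries.coeff_map, hcx1, hγc]
  have hrr : (PowerSeries.map red).comp (PowerSeries.rescale π)
      = (PowerSeries.C (R := k)).comp (red.comp (PowerSeries.constantCoeff (R := R))) := by
    ext s j
    rw [RingHom.comp_apply, PowerSeries.coeff_map, PowerSeries.coeff_rescale, RingHom.comp_apply,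
      PowerSeries.coeff_C, RingHom.comp_apply, map_mul, map_pow, hπr]
    rcases Nat.eq_zero_or_pos j with hj | hj
    · subst hj
      simp
    · rw [zero_pow (by omega), zero_mul, if_neg (by omega)]
  have hGγ : MvPolynomial.aeval γ G = 0 := by
    have h1 := congrArg (PowerSeries.map red) hF1x
    rw [map_zero] at h1
    have h2 : PowerSeries.map red (MvPolynomial.eval x1 F1)
        = MvPolynomial.eval₂ (PowerSeries.C (R := k)) (fun i => PowerSeries.map red (x1 i)) G := by
      rw [← hG, MvPolynomial.eval₂_map, ← hrr, hF1, MvPolynomial.eval_map,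
        MvPolynomial.eval₂_comp_left]
      rfl
    have h3 : ((MvPolynomial.aeval γ G : Polynomial k) : PowerSeries k)
        = MvPolynomial.eval₂ (PowerSeries.C (R := k)) (fun i => PowerSeries.map red (x1 i)) G := by
      rw [MvPolynomial.aeval_def, ← Polynomial.coeToPowerSeries.ringHom_apply,
        MvPolynomial.eval₂_comp_left]
      congr 1
      · ext c
        simp
      · funext i
        simp [hγps]
    have h4 : ((MvPolynomial.aeval γ G : Polynomial k) : PowerSeries k) = 0 := by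
      rw [h3, ← h2, h1]
    exact Polynomial.coe_eq_zero_iff.1 h4
  -- the order of the reduction
  have hex1 : ∃ j, ∃ i, red (a i j) ≠ 0 := by
    refine ⟨j0, i0, ?_⟩
    have h1 : π ^ ρ * a i0 j0 = π ^ ρ * 1 := by
      rw [ha1, hji, ← pow_add, mul_one]
      congr 1
      omega
    have h2 := mul_left_cancel₀ (pow_ne_zero ρ hπ0) h1
    rw [h2, map_one]
    exact one_ne_zero
  set ρ1 := Nat.find hex1 with hρ1
  have hρ1spec : ∃ i, red (a i ρ1) ≠ 0 := Nat.find_spec hex1
  have hρ1min : ∀ j < ρ1, ∀ i, red (a i j) = 0 := by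
    intro j hj i
    by_contra hne
    exact Nat.find_min hex1 hj ⟨i, hne⟩
  have hρ1le : ρ1 ≤ j0 := by
    refine Nat.find_min' hex1 ⟨i0, ?_⟩
    have h1 : π ^ ρ * a i0 j0 = π ^ ρ * 1 := by
      rw [ha1, hji, ← pow_add, mul_one]
      congr 1
      omega
    have h2 := mul_left_cancel₀ (pow_ne_zero ρ hπ0) h1
    rw [h2, map_one]
    exact one_ne_zero
  have hlt : ρ1 < ρ := by omega
  refine ⟨F1, x1, π ^ ρ, ρ1, fun i => red (a i ρ1), hF1h, hF1G, hF1x, pow_ne_zero ρ hπ0, hlt,
    fun i => ?_, fun j hj i => ?_, fun i => ?_, ?_, ?_⟩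
  · rw [hcx1, ha1, pow_zero, one_mul]
  · rw [hcx1]; exact hρ1min j hj i
  · rw [hcx1]
  · obtain ⟨i, hi⟩ := hρ1spec
    exact fun h => hi (congrFun h i)
  · -- the curve
    set γ' : Fin (n + 1) → Polynomial k := fun i =>
      ∑ j ∈ Finset.range (ρ - ρ1 + 1), Polynomial.monomial j (red (a i (j + ρ1))) with hγ'
    have hγ'c : ∀ i j, (γ' i).coeff j = red (a i (j + ρ1)) := by
      intro i j
      simp only [hγ', Polynomial.finsetSum_coeff, Polynomial.coeff_monomial]
      rw [Finset.sum_ite_eq' (Finset.range (ρ - ρ1 + 1)) j (fun j => red (a i (j + ρ1)))]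
      split_ifs with hj
      · rfl
      · exact (ha2 i (j + ρ1) (by rw [Finset.mem_range] at hj; omega)).symm
    have hγγ' : ∀ i, γ i = Polynomial.X ^ ρ1 * γ' i := by
      intro i
      ext j
      rw [hγc, Polynomial.coeff_X_pow_mul']
      split_ifs with hj
      · rw [hγ'c, Nat.sub_add_cancel hj]
      · exact hρ1min j (by omega) i
    refine ⟨γ', fun i => ?_, ?_, fun i => ?_, fun i => ?_⟩
    · rw [Polynomial.natDegree_le_iff_coeff_eq_zero]
      intro j hj
      rw [hγ'c]
      exact ha2 i _ (by omega)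
    · have h1 : MvPolynomial.aeval γ G = (Polynomial.X ^ ρ1) ^ d * MvPolynomial.aeval γ' G := by
        have hGh : G.IsHomogeneous d := by rw [← hG]; exact hF.map _
        have h2 := eval₂_mul_vec (algebraMap k (Polynomial k)) G hGh (Polynomial.X ^ ρ1) γ'
        rw [MvPolynomial.aeval_def, MvPolynomial.aeval_def, ← h2]
        congr 1
        funext i
        exact hγγ' i
      rw [hGγ] at h1
      rcases mul_eq_zero.1 h1.symm with h3 | h3
      · exfalso
        have h4 := eq_zero_of_pow_eq_zero h3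
        exact (pow_ne_zero ρ1 Polynomial.X_ne_zero) h4
      · exact h3
    · rw [hγ'c, Nat.sub_add_cancel hlt.le, ha3 i ρ rfl, hw]
    · rw [hγ'c, zero_add]

theorem chain_lemma {k R : Type*} [Field k] [CommRing R] [IsDomain R] [ValuationRing R]
    (red : R →+* k) (hred : ∀ a : R, IsUnit a ↔ red a ≠ 0)
    (hroot : ∀ (y : R) (N : ℕ), 0 < N → ∃ π : R, π ^ N = y)
    {n d : ℕ} (F : MvPolynomial (Fin (n + 1)) R⟦X⟧) (hF : F.IsHomogeneous d)
    (G : MvPolynomial (Fin (n + 1)) k)
    (hG : MvPolynomial.map (red.comp (PowerSeries.constantCoeff (R := R))) F = G)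
    (ρ : ℕ) (x : Fin (n + 1) → R⟦X⟧) (hx : MvPolynomial.eval x F = 0)
    (hlow : ∀ j < ρ, ∀ i, red (PowerSeries.coeff j (x i)) = 0)
    (w : Fin (n + 1) → k) (hw : ∀ i, red (PowerSeries.coeff ρ (x i)) = w i) (hw0 : w ≠ 0)
    (h0 : ∃ i, PowerSeries.coeff 0 (x i) ≠ 0) :
    ∃ (c : R) (x' : Fin (n + 1) → R), c ≠ 0 ∧ (∀ i, PowerSeries.coeff 0 (x i) = c * x' i) ∧
      (fun i => red (x' i)) ≠ 0 ∧ ∃ ρ' ≤ ρ, Chain G ρ' w (fun i => red (x' i)) := by
  induction ρ using Nat.strong_induction_on generalizing F x w with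
  | _ ρ ih =>
    rcases Nat.eq_zero_or_pos ρ with hρ | hρ
    · subst hρ
      have hfun : (fun i => red (PowerSeries.coeff 0 (x i))) = w := funext hw
      refine ⟨1, fun i => PowerSeries.coeff 0 (x i), one_ne_zero, fun i => (one_mul _).symm, ?_,
        0, le_rfl, ?_⟩
      · simp only [hfun]
        exact hw0
      · simp only [hfun]
        have := Chain.refl (G := G) w hw0 1 one_ne_zero
        rwa [one_smul] at this
    · obtain ⟨F1, x1, c, ρ1, w1, hF1, hG1, hx1, hc, hlt, h01, hlow1, hw1, hw10, hcurve⟩ :=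
        chain_step red hred hroot F hF G hG ρ hρ x hx hlow w hw hw0 h0
      have h0' : ∃ i, PowerSeries.coeff 0 (x1 i) ≠ 0 := by
        obtain ⟨i, hi⟩ := h0
        refine ⟨i, fun h => hi ?_⟩
        rw [h01, h, mul_zero]
      obtain ⟨c', x', hc', hx', hx'0, ρ', hρ', hch⟩ :=
        ih ρ1 hlt F1 hF1 hG1 x1 hx1 hlow1 w1 hw1 hw10 h0'
      refine ⟨c * c', x', mul_ne_zero hc hc', fun i => ?_, hx'0, (ρ - ρ1) + ρ', by omega,
        Chain.step hw0 hw10 hcurve hch⟩
      rw [h01, hx', mul_assoc]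

end UniqPt
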