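import Mathlib
import Pool.Agent.LibUniqPt67.C
import Pool.Agent.LibUniqPt67.Hom

/-! The chain lemma at a point `t = b`, for polynomial vectors. -/

namespace UniqPt

open Polynomial

theorem loc {k R : Type*} [Field k] [CommRing R] [IsDomain R] [ValuationRing R] [Algebra k R]
    (red : R →ₐ[k] k) (hred : ∀ a : R, IsUnit a ↔ red a ≠ 0)
    (hroot : ∀ (y : R) (N : ℕ), 0 < N → ∃ π : R, π ^ N = y)
    {n d : ℕ} (F F1 : MvPolynomial (Fin (n + 1)) k[X]) (hF : F.IsHomogeneous d)
    (hF1 : F1.IsHomogeneous d) (η : R) (hη : red η = 0) (y : Fin (n + 1) → R[X])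
    (hy : MvPolynomial.eval₂ (mapRingHom (algebraMap k R)) y F +
      C η * MvPolynomial.eval₂ (mapRingHom (algebraMap k R)) y F1 = 0)
    (b : k) (ρ : ℕ) (Q : Fin (n + 1) → k[X])
    (hQ : ∀ i, (y i).map (red : R →+* k) = (X - C b) ^ ρ * Q i)
    (hQ0 : (fun i => (Q i).eval b) ≠ 0) (h0 : ∃ i, (y i).eval (algebraMap k R b) ≠ 0) :
    ∃ (c : R) (x' : Fin (n + 1) → R), c ≠ 0 ∧
      (∀ i, (y i).eval (algebraMap k R b) = c * x' i) ∧
      (fun i => red (x' i)) ≠ 0 ∧
      ∃ ρ' ≤ ρ, Chain (fib F b) ρ' (fun i => (Q i).eval b) (fun i => red (x' i)) := by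
  let β : R := algebraMap k R b
  let τ : R[X] →+* PowerSeries R :=
    (Polynomial.coeToPowerSeries.ringHom (R := R)).comp (Polynomial.compRingHom (X + C β))
  have hτc : ∀ (p : R[X]) (j : ℕ), PowerSeries.coeff j (τ p) = (p.comp (X + C β)).coeff j := by
    intro p j
    show PowerSeries.coeff j ((p.comp (X + C β) : R[X]) : PowerSeries R) = _
    rw [Polynomial.coeff_coe]
  have hτ0 : ∀ (p : R[X]), PowerSeries.coeff 0 (τ p) = p.eval β := by
    intro p
    rw [hτc, coeff_zero_eq_eval_zero, eval_comp]
    simp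
  let FF : MvPolynomial (Fin (n + 1)) (PowerSeries R) :=
    MvPolynomial.map τ (MvPolynomial.map (mapRingHom (algebraMap k R)) F +
      MvPolynomial.C (C η) * MvPolynomial.map (mapRingHom (algebraMap k R)) F1)
  have hFF : FF.IsHomogeneous d := by
    apply MvPolynomial.IsHomogeneous.map
    exact (hF.map _).add ((hF1.map _).C_mul _)
  have hG : MvPolynomial.map ((red : R →+* k).comp (PowerSeries.constantCoeff (R := R))) FF =
      fib F b := by
    have hcomp : (((red : R →+* k).comp (PowerSeries.constantCoeff (R := R))).comp τ).comp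
        (mapRingHom (algebraMap k R)) = evalRingHom b := by
      apply Polynomial.ringHom_ext
      · intro c
        show red (PowerSeries.constantCoeff (τ (mapRingHom (algebraMap k R) (C c)))) = _
        rw [← PowerSeries.coeff_zero_eq_constantCoeff_apply, hτ0]
        simp
      · show red (PowerSeries.constantCoeff (τ (mapRingHom (algebraMap k R) X))) = _
        rw [← PowerSeries.coeff_zero_eq_constantCoeff_apply, hτ0]
        simp [β]
    show MvPolynomial.map _ (MvPolynomial.map τ _) = _
    rw [MvPolynomial.map_map, map_add, map_mul, MvPolynomial.map_map, MvPolynomial.map_map,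
      MvPolynomial.map_C]
    have h1 : ((red : R →+* k).comp (PowerSeries.constantCoeff (R := R))).comp τ (C η) = 0 := by
      show red (PowerSeries.constantCoeff (τ (C η))) = 0
      rw [← PowerSeries.coeff_zero_eq_constantCoeff_apply, hτ0, eval_C]
      exact hη
    rw [h1, map_zero, zero_mul, add_zero, hcomp]
    rfl
  have hx : MvPolynomial.eval (fun i => τ (y i)) FF = 0 := by
    have h2 : MvPolynomial.eval (fun i => τ (y i)) FF =
        τ (MvPolynomial.eval y (MvPolynomial.map (mapRingHom (algebraMap k R)) F +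
      MvPolynomial.C (C η) * MvPolynomial.map (mapRingHom (algebraMap k R)) F1)) := by
      rw [MvPolynomial.eval_map]
      exact (MvPolynomial.hom_eval₂ _ (RingHom.id _) τ y).symm
    rw [h2, map_add, map_mul, MvPolynomial.eval_map, MvPolynomial.eval_map, MvPolynomial.eval_C,
      hy, map_zero]
  have hcoef : ∀ i j, red (PowerSeries.coeff j (τ (y i))) =
      (X ^ ρ * (Q i).comp (X + C b)).coeff j := by
    intro i j
    rw [hτc]
    have h3 : red (((y i).comp (X + C β)).coeff j) =
        (((y i).comp (X + C β)).map (red : R →+* k)).coeff j := by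
      rw [coeff_map]; rfl
    rw [h3, Polynomial.map_comp, hQ i]
    have h4 : (X + C β : R[X]).map (red : R →+* k) = X + C b := by
      simp [β]
    rw [h4]
    simp
  obtain ⟨c, x', hc, hx', hne, ρ', hρ', hch⟩ := chain_lemma (red : R →+* k) hred hroot FF hFF
    (fib F b) hG ρ (fun i => τ (y i)) hx
    (by
      intro j hj i
      have := hcoef i j
      rw [coeff_X_pow_mul', if_neg (by omega)] at this
      exact this)
    (fun i => (Q i).eval b)
    (by
      intro i
      have := hcoef i ρ
      rw [coeff_X_pow_mul', if_pos le_rfl, Nat.sub_self, coeff_zero_eq_eval_zero, eval_comp] at this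
      simpa using this)
    hQ0
    (by
      obtain ⟨i, hi⟩ := h0
      exact ⟨i, by rw [hτ0]; exact hi⟩)
  refine ⟨c, x', hc, fun i => ?_, hne, ρ', hρ', hch⟩
  rw [← hx' i, hτ0]

/-- chains can be rescaled -/
theorem Chain.smul {k : Type*} [Field k] {n d : ℕ} {G : MvPolynomial (Fin (n + 1)) k}
    (hG : G.IsHomogeneous d) (a : k) (ha : a ≠ 0) {e : ℕ} {p q : Fin (n + 1) → k}
    (h : Chain G e p q) : Chain G e (a • p) (a • q) := by
  induction h with
  | refl p hp c hc =>
    rw [smul_comm a c p]
    exact Chain.refl _ (smul_ne_zero ha hp) c hc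
  | step hp hq hcv _ ih =>
    refine Chain.step (smul_ne_zero ha hp) (smul_ne_zero ha hq) ?_ ih
    obtain ⟨γ, h1, h2, h3, h4⟩ := hcv
    refine ⟨fun i => C a * γ i, fun i => (natDegree_C_mul_le _ _).trans (h1 i), ?_, ?_, ?_⟩
    · rw [MvPolynomial.aeval_def, eval₂_smul_homog _ (C a) γ hG, ← MvPolynomial.aeval_def, h2,
        mul_zero]
    · intro i
      rw [coeff_C_mul, h3]; rfl
    · intro i
      rw [coeff_C_mul, h4]; rfl

end UniqPt
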