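import Mathlib

/-! Polynomial part of the kernel computation. -/

namespace UniqPt

open Polynomial Finset

variable {k : Type*} [Field k]

/-- the partial sums `g_j = ∑_{j < i < n} X^{N (i-j-1)} f_i` -/
noncomputable def gg (n N : ℕ) (f : ℕ → k[X]) (j : ℕ) : k[X] :=
  ∑ i ∈ Ico (j + 1) n, X ^ (N * (i - j - 1)) * f i

theorem gg_last (n N : ℕ) (f : ℕ → k[X]) (j : ℕ) (h : n ≤ j + 1) : gg n N f j = 0 := by
  unfold gg
  rw [Ico_eq_empty_of_le h, sum_empty]

theorem gg_step (n N : ℕ) (f : ℕ → k[X]) (j : ℕ) (h : j + 1 < n) :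
    gg n N f j = f (j + 1) + X ^ N * gg n N f (j + 1) := by
  unfold gg
  rw [sum_eq_sum_Ico_succ_bot h, mul_sum]
  congr 1
  · have : j + 1 - j - 1 = 0 := by omega
    rw [this]; simp
  · apply sum_congr rfl
    intro i hi
    rw [mem_Ico] at hi
    rw [← mul_assoc, ← pow_add]
    congr 2
    have : i - j - 1 = (i - (j + 1) - 1) + 1 := by omega
    rw [this]; ring

theorem gg_zero (n N : ℕ) (f : ℕ → k[X]) (h : 0 < n)
    (hs : ∑ i ∈ range n, X ^ (N * i) * f i = 0) : f 0 + X ^ N * gg n N f 0 = 0 := by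
  rw [← hs, range_eq_Ico, sum_eq_sum_Ico_succ_bot h]
  unfold gg
  rw [mul_sum]
  congr 1
  · simp
  · apply sum_congr (by simp)
    intro i hi
    rw [mem_Ico] at hi
    rw [← mul_assoc, ← pow_add]
    congr 2
    have : i = (i - 0 - 1) + 1 := by omega
    conv_rhs => rw [this]
    ring

theorem natDegree_le_of_X_pow_mul {g : k[X]} {A c : ℕ} (h : (X ^ A * g).natDegree ≤ A + c) :
    g.natDegree ≤ c := by
  by_cases hg : g = 0
  · rw [hg]; simp
  · rw [natDegree_X_pow_mul A hg] at h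
    omega

theorem gg_deg (n N c : ℕ) (f : ℕ → k[X]) (hf : ∀ i < n, (f i).natDegree ≤ N + c)
    (hs : ∑ i ∈ range n, X ^ (N * i) * f i = 0) (j : ℕ) (hj : j + 1 < n) :
    (gg n N f j).natDegree ≤ c := by
  apply natDegree_le_of_X_pow_mul (A := N * (j + 1))
  have h1 : X ^ (N * (j + 1)) * gg n N f j = ∑ i ∈ Ico (j + 1) n, X ^ (N * i) * f i := by
    unfold gg
    rw [mul_sum]
    apply sum_congr rfl
    intro i hi
    rw [mem_Ico] at hi
    rw [← mul_assoc, ← pow_add]
    congr 2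
    have : i = (i - j - 1) + (j + 1) := by omega
    conv_rhs => rw [this]
    ring
  have h2 : ∑ i ∈ Ico (j + 1) n, X ^ (N * i) * f i = -∑ i ∈ range (j + 1), X ^ (N * i) * f i := by
    rw [range_eq_Ico, ← sum_Ico_consecutive _ (Nat.zero_le (j + 1)) hj.le, ← range_eq_Ico] at hs
    exact eq_neg_of_add_eq_zero_right hs
  rw [h1, h2, natDegree_neg]
  apply natDegree_sum_le_of_forall_le
  intro i hi
  rw [mem_range] at hi
  refine natDegree_mul_le.trans ?_
  rw [natDegree_X_pow]
  have := hf i (by omega)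
  have h3 : N * i ≤ N * j := Nat.mul_le_mul_left _ (by omega)
  rw [Nat.mul_add, Nat.mul_one]
  omega

/-- If `∑ X^{N i} f_i = 0`, `deg f_i ≤ N + c`, and each `g_j` has `c + 1` roots, then `f = 0`. -/
theorem f_eq_zero (n N c : ℕ) (f : ℕ → k[X]) (hn : 0 < n)
    (hf : ∀ i < n, (f i).natDegree ≤ N + c)
    (hs : ∑ i ∈ range n, X ^ (N * i) * f i = 0)
    (hroots : ∀ j, j + 1 < n → ∃ s : Finset k, s.card = c + 1 ∧ ∀ b ∈ s, (gg n N f j).eval b = 0) :
    ∀ i < n, f i = 0 := by
  have hg : ∀ j, gg n N f j = 0 := by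
    intro j
    by_cases hj : j + 1 < n
    · obtain ⟨s, hsc, hsr⟩ := hroots j hj
      apply Polynomial.eq_zero_of_natDegree_lt_card_of_eval_eq_zero' (gg n N f j) s hsr
      have := gg_deg n N c f hf hs j hj
      omega
    · exact gg_last n N f j (by omega)
  intro i hi
  cases i with
  | zero =>
    have := gg_zero n N f hn hs
    rw [hg 0, mul_zero, add_zero] at this
    exact this
  | succ j =>
    have := gg_step n N f j hi
    rw [hg j, hg (j + 1), mul_zero, add_zero] at this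
    exact this.symm

/-- If moreover `f_i = X^c u_i - u_{i+1}` and `deg u_i ≤ n c`, then `u_i = a X^{c i}`. -/
theorem u_eq (n c : ℕ) (u : ℕ → k[X]) (hu : ∀ i ≤ n, (u i).natDegree ≤ n * c)
    (hf : ∀ i < n, X ^ c * u i - u (i + 1) = 0) :
    ∃ a : k, ∀ i ≤ n, u i = C a * X ^ (c * i) := by
  have h1 : ∀ i ≤ n, u i = X ^ (c * i) * u 0 := by
    intro i
    induction i with
    | zero => intro _; simp
    | succ i ih =>
      intro hi
      have h2 := hf i (by omega)
      have h3 := ih (by omega)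
      have h4 : u (i + 1) = X ^ c * u i := (sub_eq_zero.mp h2).symm
      rw [h4, h3]; ring
  have h5 : (u 0).natDegree ≤ 0 := by
    apply natDegree_le_of_X_pow_mul (A := c * n)
    rw [← h1 n le_rfl]
    have := hu n le_rfl
    rw [mul_comm c n]
    omega
  refine ⟨(u 0).coeff 0, fun i hi => ?_⟩
  rw [h1 i hi, eq_C_of_natDegree_le_zero h5]
  simp only [coeff_C_zero]
  ring

end UniqPt
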