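import Mathlib
import Pool.Agent.LibUniqPt67.Hom
import Pool.Agent.LibUniqPt67.P

/-! Coordinates on the space of polynomial vectors of bounded degree. -/

namespace UniqPt

open Polynomial

section vec

variable {R S : Type*} [CommRing R] [CommRing S] {n e : ℕ}

/-- the polynomial vector with given coefficients -/
noncomputable def vec (x : Fin (n + 1) × Fin (e + 1) → R) (i : Fin (n + 1)) : R[X] :=
  ∑ a : Fin (e + 1), C (x (i, a)) * X ^ (a : ℕ)

theorem vec_natDegree (x : Fin (n + 1) × Fin (e + 1) → R) (i : Fin (n + 1)) :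
    (vec x i).natDegree ≤ e := by
  unfold vec
  apply natDegree_sum_le_of_forall_le
  intro a _
  refine (natDegree_C_mul_X_pow_le _ _).trans ?_
  have := a.2
  omega

theorem vec_coeff (x : Fin (n + 1) × Fin (e + 1) → R) (i : Fin (n + 1)) (a : Fin (e + 1)) :
    (vec x i).coeff a = x (i, a) := by
  unfold vec
  rw [finsetSum_coeff, Finset.sum_eq_single a]
  · simp
  · intro b _ hb
    rw [coeff_C_mul_X_pow, if_neg]
    intro h
    exact hb (Fin.ext h.symm)
  · intro h
    exact absurd (Finset.mem_univ _) h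

theorem vec_map (g : R →+* S) (x : Fin (n + 1) × Fin (e + 1) → R) (i : Fin (n + 1)) :
    (vec x i).map g = vec (fun j => g (x j)) i := by
  unfold vec
  rw [Polynomial.map_sum]
  apply Finset.sum_congr rfl
  intro a _
  simp

theorem vec_surj (y : Fin (n + 1) → R[X]) (hy : ∀ i, (y i).natDegree ≤ e) :
    vec (fun j : Fin (n + 1) × Fin (e + 1) => (y j.1).coeff j.2) = y := by
  funext i
  ext a
  by_cases ha : a ≤ e
  · exact vec_coeff (fun j : Fin (n + 1) × Fin (e + 1) => (y j.1).coeff j.2) i
      (⟨a, Nat.lt_succ_of_le ha⟩ : Fin (e + 1))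
  · rw [coeff_eq_zero_of_natDegree_lt, coeff_eq_zero_of_natDegree_lt]
    · have := hy i
      omega
    · have := vec_natDegree (fun j : Fin (n + 1) × Fin (e + 1) => (y j.1).coeff j.2) i
      omega

theorem vec_ne_zero (x : Fin (n + 1) × Fin (e + 1) → R) (i : Fin (n + 1)) (a : Fin (e + 1))
    (h : x (i, a) ≠ 0) : vec x i ≠ 0 := by
  intro h0
  apply h
  rw [← vec_coeff x i a, h0, coeff_zero]

theorem vec_add_mul (x u : Fin (n + 1) × Fin (e + 1) → R) (r : R) (i : Fin (n + 1)) :
    vec (fun j => x j + r * u j) i = vec x i + C r * vec u i := by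
  unfold vec
  rw [Finset.mul_sum, ← Finset.sum_add_distrib]
  apply Finset.sum_congr rfl
  intro a _
  rw [C_add, C_mul]
  ring

end vec

/-! ### the coefficient polynomials -/

section coeffs

variable {k : Type*} [Field k] {n e : ℕ}

/-- the coefficients (in `t`) of `F` evaluated at the generic polynomial vector of degree `≤ e` -/
noncomputable def E (e : ℕ) (F : MvPolynomial (Fin (n + 1)) k[X]) (a : ℕ) :
    MvPolynomial (Fin (n + 1) × Fin (e + 1)) k :=
  (MvPolynomial.eval₂ (Polynomial.mapRingHom (MvPolynomial.C (σ := Fin (n + 1) × Fin (e + 1)))) (vec MvPolynomial.X) F).coeff a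

theorem E_aeval {R : Type*} [CommRing R] [Algebra k R] (F : MvPolynomial (Fin (n + 1)) k[X])
    (a : ℕ) (x : Fin (n + 1) × Fin (e + 1) → R) :
    MvPolynomial.aeval x (E e F a) =
      (MvPolynomial.eval₂ (Polynomial.mapRingHom (algebraMap k R)) (vec x) F).coeff a := by
  unfold E
  have h1 : MvPolynomial.aeval x
      ((MvPolynomial.eval₂ (Polynomial.mapRingHom (MvPolynomial.C (σ := Fin (n + 1) × Fin (e + 1)))) (vec MvPolynomial.X) F).coeff a) =
      (((MvPolynomial.eval₂ (Polynomial.mapRingHom (MvPolynomial.C (σ := Fin (n + 1) × Fin (e + 1)))) (vec MvPolynomial.X) F)).map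
        (MvPolynomial.aeval x : MvPolynomial (Fin (n + 1) × Fin (e + 1)) k →ₐ[k] R).toRingHom).coeff a := by
    rw [coeff_map]; rfl
  rw [h1, ← Polynomial.coe_mapRingHom, MvPolynomial.hom_eval₂]
  congr 1
  have h2 : ((Polynomial.mapRingHom (MvPolynomial.aeval x :
      MvPolynomial (Fin (n + 1) × Fin (e + 1)) k →ₐ[k] R).toRingHom).comp
      (Polynomial.mapRingHom (MvPolynomial.C (σ := Fin (n + 1) × Fin (e + 1))))) = Polynomial.mapRingHom (algebraMap k R) := by
    rw [Polynomial.mapRingHom_comp]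
    congr 1
    ext c
    simp
  have h3 : (fun i => (Polynomial.mapRingHom (MvPolynomial.aeval x :
      MvPolynomial (Fin (n + 1) × Fin (e + 1)) k →ₐ[k] R).toRingHom) (vec MvPolynomial.X i)) =
      vec x := by
    funext i
    rw [Polynomial.coe_mapRingHom, vec_map]
    congr 1
    funext j
    simp
  rw [h2]
  show MvPolynomial.eval₂ _ (fun i => (Polynomial.mapRingHom (MvPolynomial.aeval x :
      MvPolynomial (Fin (n + 1) × Fin (e + 1)) k →ₐ[k] R).toRingHom) (vec MvPolynomial.X i)) F = _
  rw [h3]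

/-- all coefficients homogeneous of degree `d` -/
def HP {σ : Type*} (d : ℕ) (P : (MvPolynomial σ k)[X]) : Prop := ∀ a, (P.coeff a).IsHomogeneous d

theorem HP.mul {σ : Type*} {d d' : ℕ} {P Q : (MvPolynomial σ k)[X]} (hP : HP d P) (hQ : HP d' Q) :
    HP (d + d') (P * Q) := by
  intro a
  rw [coeff_mul]
  apply MvPolynomial.IsHomogeneous.sum
  intro i _
  exact (hP _).mul (hQ _)

theorem HP.sum {σ ι : Type*} {d : ℕ} (s : Finset ι) (P : ι → (MvPolynomial σ k)[X])
    (hP : ∀ i ∈ s, HP d (P i)) : HP d (∑ i ∈ s, P i) := by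
  intro a
  rw [finsetSum_coeff]
  apply MvPolynomial.IsHomogeneous.sum
  intro i hi
  exact hP i hi a

theorem HP.one {σ : Type*} : HP 0 (1 : (MvPolynomial σ k)[X]) := by
  intro a
  rw [coeff_one]
  split_ifs
  · exact MvPolynomial.isHomogeneous_one _ _
  · exact MvPolynomial.isHomogeneous_zero _ _ _

theorem HP.pow {σ : Type*} {d : ℕ} {P : (MvPolynomial σ k)[X]} (hP : HP d P) (m : ℕ) :
    HP (m * d) (P ^ m) := by
  induction m with
  | zero => simpa using HP.one
  | succ m ih =>
    rw [pow_succ, Nat.succ_mul]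
    exact ih.mul hP

theorem HP.prod {σ ι : Type*} (s : Finset ι) (d : ι → ℕ) (P : ι → (MvPolynomial σ k)[X])
    (hP : ∀ i ∈ s, HP (d i) (P i)) : HP (∑ i ∈ s, d i) (∏ i ∈ s, P i) := by
  classical
  induction s using Finset.induction_on with
  | empty => simpa using HP.one
  | insert i s hi ih =>
    rw [Finset.prod_insert hi, Finset.sum_insert hi]
    exact (hP i (Finset.mem_insert_self _ _)).mul
      (ih (fun j hj => hP j (Finset.mem_insert_of_mem hj)))

theorem HP.vec (i : Fin (n + 1)) :
    HP 1 (vec (MvPolynomial.X (R := k) (σ := Fin (n + 1) × Fin (e + 1))) i) := by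
  unfold UniqPt.vec
  apply HP.sum
  intro a _ b
  rw [coeff_C_mul_X_pow]
  split_ifs
  · exact MvPolynomial.isHomogeneous_X _ _
  · exact MvPolynomial.isHomogeneous_zero _ _ _

theorem HP.const {σ : Type*} (p : k[X]) : HP 0 (Polynomial.mapRingHom (MvPolynomial.C (σ := σ)) p) := by
  intro a
  rw [Polynomial.coe_mapRingHom, coeff_map]
  exact MvPolynomial.isHomogeneous_C _ _

theorem E_homog {F : MvPolynomial (Fin (n + 1)) k[X]} {d : ℕ} (hF : F.IsHomogeneous d) (a : ℕ) :
    (E e F a).IsHomogeneous d := by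
  have h : HP d (MvPolynomial.eval₂ (Polynomial.mapRingHom (MvPolynomial.C (σ := Fin (n + 1) × Fin (e + 1)))) (UniqPt.vec
      (MvPolynomial.X (R := k) (σ := Fin (n + 1) × Fin (e + 1)))) F) := by
    rw [MvPolynomial.eval₂_eq]
    apply HP.sum
    intro m hm
    have hdeg : m.degree = d := by
      by_contra hne
      exact (MvPolynomial.mem_support_iff.mp hm) (hF.coeff_eq_zero hne)
    have h1 : HP (∑ i ∈ m.support, m i * 1) (∏ i ∈ m.support, (UniqPt.vec
      (MvPolynomial.X (R := k) (σ := Fin (n + 1) × Fin (e + 1))) i) ^ m i) :=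
      HP.prod _ _ _ (fun i _ => (HP.vec i).pow (m i))
    have h2 := (HP.const (σ := Fin (n + 1) × Fin (e + 1)) (MvPolynomial.coeff m F)).mul h1
    have h3 : 0 + ∑ i ∈ m.support, m i * 1 = d := by
      rw [← hdeg, Finsupp.degree_apply]
      simp
    rw [h3] at h2
    exact h2
  exact h a

/-- degree bound -/
theorem eval₂_natDegree {R : Type*} [CommRing R] [Algebra k R] (F : MvPolynomial (Fin (n + 1)) k[X])
    {d c : ℕ} (hF : F.IsHomogeneous d) (hc : ∀ m, (MvPolynomial.coeff m F).natDegree ≤ c)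
    (y : Fin (n + 1) → R[X]) (hy : ∀ i, (y i).natDegree ≤ e) :
    (MvPolynomial.eval₂ (Polynomial.mapRingHom (algebraMap k R)) y F).natDegree ≤ d * e + c := by
  rw [MvPolynomial.eval₂_eq]
  apply natDegree_sum_le_of_forall_le
  intro m hm
  have hdeg : m.degree = d := by
    by_contra hne
    exact (MvPolynomial.mem_support_iff.mp hm) (hF.coeff_eq_zero hne)
  refine natDegree_mul_le.trans ?_
  have h1 : (Polynomial.mapRingHom (algebraMap k R) (MvPolynomial.coeff m F)).natDegree ≤ c := by
    rw [Polynomial.coe_mapRingHom]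
    exact natDegree_map_le.trans (hc m)
  have h2 : (∏ i ∈ m.support, (y i) ^ m i).natDegree ≤ d * e := by
    refine (natDegree_prod_le _ _).trans ?_
    rw [← hdeg, Finsupp.degree_apply, Finset.sum_mul]
    apply Finset.sum_le_sum
    intro i _
    refine natDegree_pow_le.trans ?_
    exact Nat.mul_le_mul_left _ (hy i)
  omega

/-! ### linear forms -/

/-- the linear form `x ↦ ∑ i, L i * (vec x i)(b)` -/
noncomputable def lin (L : Fin (n + 1) → k) (b : k) : MvPolynomial (Fin (n + 1) × Fin (e + 1)) k :=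
  ∑ i : Fin (n + 1), ∑ a : Fin (e + 1), MvPolynomial.C (L i * b ^ (a : ℕ)) * MvPolynomial.X (i, a)

theorem lin_homog (L : Fin (n + 1) → k) (b : k) : (lin (e := e) L b).IsHomogeneous 1 := by
  unfold lin
  apply MvPolynomial.IsHomogeneous.sum
  intro i _
  apply MvPolynomial.IsHomogeneous.sum
  intro a _
  exact MvPolynomial.isHomogeneous_C_mul_X _ _

theorem lin_aeval {R : Type*} [CommRing R] [Algebra k R] (L : Fin (n + 1) → k) (b : k)
    (x : Fin (n + 1) × Fin (e + 1) → R) :
    MvPolynomial.aeval x (lin (e := e) L b) =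
      ∑ i : Fin (n + 1), algebraMap k R (L i) * (vec x i).eval (algebraMap k R b) := by
  unfold lin vec
  rw [map_sum]
  apply Finset.sum_congr rfl
  intro i _
  rw [map_sum, eval_finsetSum, Finset.mul_sum]
  apply Finset.sum_congr rfl
  intro a _
  simp
  ring

end coeffs

end UniqPt
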