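import Mathlib
import Pool.Agent.LibUniqPt67.G

/-! The good pair `(F1, x1)`. -/

namespace UniqPt

open Polynomial

section

variable {k : Type*} [Field k]

/-- `∑_j x_j x_n^j x_0^(n-1-j)` -/
noncomputable def AA (k : Type*) [CommRing k] (n : ℕ) : MvPolynomial (Fin (n + 1)) k :=
  ∑ j : Fin n, MvPolynomial.X j.castSucc * MvPolynomial.X (Fin.last n) ^ (j : ℕ) *
    MvPolynomial.X 0 ^ (n - 1 - (j : ℕ))

/-- `∑_j x_{j+1} x_n^j x_0^(n-1-j)` -/
noncomputable def BB (k : Type*) [CommRing k] (n : ℕ) : MvPolynomial (Fin (n + 1)) k :=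
  ∑ j : Fin n, MvPolynomial.X j.succ * MvPolynomial.X (Fin.last n) ^ (j : ℕ) *
    MvPolynomial.X 0 ^ (n - 1 - (j : ℕ))

theorem AA_homog (n : ℕ) : (AA k n).IsHomogeneous n := by
  unfold AA
  apply MvPolynomial.IsHomogeneous.sum
  intro j _
  have h : n = 1 + 1 * (j : ℕ) + 1 * (n - 1 - (j : ℕ)) := by
    have := j.2
    omega
  conv_rhs => rw [h]
  exact ((MvPolynomial.isHomogeneous_X _ _).mul ((MvPolynomial.isHomogeneous_X _ _).pow _)).mul
    ((MvPolynomial.isHomogeneous_X _ _).pow _)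

theorem BB_homog (n : ℕ) : (BB k n).IsHomogeneous n := by
  unfold BB
  apply MvPolynomial.IsHomogeneous.sum
  intro j _
  have h : n = 1 + 1 * (j : ℕ) + 1 * (n - 1 - (j : ℕ)) := by
    have := j.2
    omega
  conv_rhs => rw [h]
  exact ((MvPolynomial.isHomogeneous_X _ _).mul ((MvPolynomial.isHomogeneous_X _ _).pow _)).mul
    ((MvPolynomial.isHomogeneous_X _ _).pow _)

/-- `F1 = ∑_j (t^c x_j - x_{j+1}) x_n^j x_0^(n-1-j)` -/
noncomputable def F1 (k : Type*) [Field k] (n c : ℕ) : MvPolynomial (Fin (n + 1)) k[X] :=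
  MvPolynomial.C (X ^ c) * MvPolynomial.map C (AA k n) - MvPolynomial.map C (BB k n)

theorem F1_homog (n c : ℕ) : (F1 k n c).IsHomogeneous n := by
  unfold F1
  apply MvPolynomial.IsHomogeneous.sub
  · exact ((AA_homog n).map _).C_mul _
  · exact (BB_homog n).map _

theorem F1_natDegree (n c : ℕ) (m : Fin (n + 1) →₀ ℕ) :
    (MvPolynomial.coeff m (F1 k n c)).natDegree ≤ c := by
  unfold F1
  rw [MvPolynomial.coeff_sub, MvPolynomial.coeff_C_mul, MvPolynomial.coeff_map,
    MvPolynomial.coeff_map]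
  refine (natDegree_sub_le _ _).trans ?_
  rw [natDegree_C, max_eq_left (Nat.zero_le _)]
  refine natDegree_mul_le.trans ?_
  rw [natDegree_C, natDegree_X_pow]
  omega

theorem F1_eval {R : Type*} [CommRing R] [Algebra k R] (n c : ℕ) (y : Fin (n + 1) → R[X]) :
    MvPolynomial.eval₂ (Polynomial.mapRingHom (algebraMap k R)) y (F1 k n c) =
      ∑ j : Fin n, (X ^ c * y j.castSucc - y j.succ) * y (Fin.last n) ^ (j : ℕ) *
        y 0 ^ (n - 1 - (j : ℕ)) := by
  unfold F1 AA BB
  rw [MvPolynomial.eval₂_sub, MvPolynomial.eval₂_mul, MvPolynomial.eval₂_C,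
    MvPolynomial.eval₂_map, MvPolynomial.eval₂_map, MvPolynomial.eval₂_sum,
    MvPolynomial.eval₂_sum, Finset.mul_sum, ← Finset.sum_sub_distrib]
  apply Finset.sum_congr rfl
  intro j _
  simp only [MvPolynomial.eval₂_mul, MvPolynomial.eval₂_pow, MvPolynomial.eval₂_X,
    Polynomial.coe_mapRingHom, Polynomial.map_pow, Polynomial.map_X]
  ring

/-- the coefficients of `x1 = (1, t^c, ..., t^{nc})` -/
noncomputable def x1 (k : Type*) [Field k] (n c : ℕ) (j : Fin (n + 1) × Fin (n * c + 1)) : k :=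
  (X ^ (c * (j.1 : ℕ)) : k[X]).coeff j.2

theorem vec_x1 (n c : ℕ) (i : Fin (n + 1)) : vec (x1 k n c) i = X ^ (c * (i : ℕ)) := by
  have := vec_surj (R := k) (e := n * c) (fun i : Fin (n + 1) => X ^ (c * (i : ℕ))) (by
    intro i
    rw [natDegree_X_pow, mul_comm n c]
    exact Nat.mul_le_mul_left _ (by have := i.2; omega))
  exact congrFun this i

theorem vec_Cx1 (n c : ℕ) (i : Fin (n + 1)) :
    vec (fun j => (C (x1 k n c j) : k[X])) i = X ^ (c * (i : ℕ)) := by
  rw [← vec_map C (x1 k n c) i, vec_x1]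
  simp

theorem F1_x1 (n c a : ℕ) : MvPolynomial.eval (x1 k n c) (E (n * c) (F1 k n c) a) = 0 := by
  have h := E_aeval (R := k) (F1 k n c) a (x1 k n c)
  rw [F1_eval] at h
  have h2 : MvPolynomial.aeval (x1 k n c) (E (n * c) (F1 k n c) a) =
      MvPolynomial.eval (x1 k n c) (E (n * c) (F1 k n c) a) := by
    rw [MvPolynomial.aeval_def, Algebra.algebraMap_self, MvPolynomial.eval₂_id]
  rw [← h2, h, Finset.sum_eq_zero, coeff_zero]
  intro j _
  rw [vec_x1, vec_x1]
  simp only [Fin.val_castSucc, Fin.val_succ]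
  ring

/-- the linearisation of `F1` at `x1` -/
noncomputable def JJ (n c : ℕ) (u : Fin (n + 1) × Fin (n * c + 1) → k) : k[X] :=
  ∑ j : Fin n, X ^ (n * c * (j : ℕ)) * (X ^ c * vec u j.castSucc - vec u j.succ)

theorem F1_lin (n c a : ℕ) (u : Fin (n + 1) × Fin (n * c + 1) → k) :
    (MvPolynomial.aeval (fun i => (C (x1 k n c i) + C (u i) * X : k[X]))
      (E (n * c) (F1 k n c) a)).coeff 1 = (JJ n c u).coeff a := by
  rw [E_aeval (R := k[X]), F1_eval]
  have hY : ∀ i, vec (fun i => (C (x1 k n c i) + C (u i) * X : k[X])) i =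
      X ^ (c * (i : ℕ)) + C X * (vec u i).map C := by
    intro i
    have h1 := vec_add_mul (fun j => (C (x1 k n c j) : k[X])) (fun j => (C (u j) : k[X])) X i
    rw [vec_Cx1, ← vec_map C u i] at h1
    rw [← h1]
    congr 1
    funext j
    ring
  have hW : (∑ j : Fin n, (X ^ c * vec (fun i => (C (x1 k n c i) + C (u i) * X : k[X])) j.castSucc -
      vec (fun i => (C (x1 k n c i) + C (u i) * X : k[X])) j.succ) *
      vec (fun i => (C (x1 k n c i) + C (u i) * X : k[X])) (Fin.last n) ^ (j : ℕ) *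
        vec (fun i => (C (x1 k n c i) + C (u i) * X : k[X])) 0 ^ (n - 1 - (j : ℕ))) =
      C X * ∑ j : Fin n, ((X ^ c * vec u j.castSucc - vec u j.succ).map C) *
      (X ^ (c * n) + C X * (vec u (Fin.last n)).map C) ^ (j : ℕ) *
        (1 + C X * (vec u 0).map C) ^ (n - 1 - (j : ℕ)) := by
    rw [Finset.mul_sum]
    apply Finset.sum_congr rfl
    intro j _
    rw [hY, hY, hY, hY]
    simp only [Fin.val_castSucc, Fin.val_succ, Fin.val_last, Fin.val_zero, mul_zero, pow_zero,
      Polynomial.map_sub, Polynomial.map_mul, Polynomial.map_pow, Polynomial.map_X]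
    ring
  rw [hW, coeff_C_mul, mul_comm X, coeff_mul_X]
  have h0 : ∀ W : k[X][X], (W.coeff a).coeff 0 = (W.map (Polynomial.constantCoeff)).coeff a := by
    intro W
    rw [coeff_map]
    rfl
  rw [h0, Polynomial.map_sum]
  unfold JJ
  congr 1
  apply Finset.sum_congr rfl
  intro j _
  have h3 : ∀ p : k[X], (p.map (C : k →+* k[X])).map (Polynomial.constantCoeff) = p := by
    intro p
    rw [Polynomial.map_map]
    have : (Polynomial.constantCoeff.comp (C : k →+* k[X])) = RingHom.id k := by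
      ext c; simp
    rw [this, Polynomial.map_id]
  rw [Polynomial.map_mul, Polynomial.map_mul, Polynomial.map_pow, Polynomial.map_pow,
    Polynomial.map_add, Polynomial.map_add, Polynomial.map_mul, Polynomial.map_mul, h3, h3, h3]
  simp only [Polynomial.map_pow, Polynomial.map_X, Polynomial.map_C, Polynomial.map_one,
    Polynomial.constantCoeff_apply, coeff_X_zero, map_zero, zero_mul, add_zero, one_pow, mul_one]
  rw [← pow_mul]
  ring

/-- the functional computing `g_j(b)` -/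
noncomputable def LL (n c j : ℕ) (b : k) (i : Fin (n + 1)) : k :=
  ∑ l ∈ Finset.Ico (j + 1) n, b ^ (n * c * (l - j - 1)) *
    (b ^ c * (if (i : ℕ) = l then 1 else 0) - (if (i : ℕ) = l + 1 then 1 else 0))

/-- extension of a vector by zero -/
def ext0 {M : Type*} [Zero M] {n : ℕ} (y : Fin (n + 1) → M) (i : ℕ) : M :=
  if h : i < n + 1 then y ⟨i, h⟩ else 0

theorem sum_ite_ext0 {n : ℕ} (y : Fin (n + 1) → k) (l : ℕ) :
    ∑ i : Fin (n + 1), (if (i : ℕ) = l then (1 : k) else 0) * y i = ext0 y l := by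
  unfold ext0
  split_ifs with h
  · rw [Finset.sum_eq_single (⟨l, h⟩ : Fin (n + 1))]
    · simp
    · intro i _ hi
      rw [if_neg, zero_mul]
      intro h2
      exact hi (Fin.ext h2)
    · intro h2
      exact absurd (Finset.mem_univ _) h2
  · apply Finset.sum_eq_zero
    intro i _
    rw [if_neg, zero_mul]
    intro h2
    apply h
    rw [← h2]
    exact i.2

theorem LL_sum (n c j : ℕ) (b : k) (y : Fin (n + 1) → k) :
    ∑ i, LL n c j b i * y i = ∑ l ∈ Finset.Ico (j + 1) n, b ^ (n * c * (l - j - 1)) *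
      (b ^ c * ext0 y l - ext0 y (l + 1)) := by
  unfold LL
  simp_rw [Finset.sum_mul]
  rw [Finset.sum_comm]
  apply Finset.sum_congr rfl
  intro l _
  rw [← sum_ite_ext0, ← sum_ite_ext0, Finset.mul_sum, ← Finset.sum_sub_distrib, Finset.mul_sum]
  apply Finset.sum_congr rfl
  intro i _
  ring

theorem LL_x1 (n c j : ℕ) (b : k) : ∑ i : Fin (n + 1), LL n c j b i * b ^ (c * (i : ℕ)) = 0 := by
  rw [LL_sum]
  apply Finset.sum_eq_zero
  intro l hl
  rw [Finset.mem_Ico] at hl
  unfold ext0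
  rw [dif_pos (by omega), dif_pos (by omega)]
  simp only
  ring

theorem LL_gg (n c j : ℕ) (b : k) (U : Fin (n + 1) → k[X]) :
    ∑ i : Fin (n + 1), LL n c j b i * (U i).eval b =
      (gg n (n * c) (fun l => X ^ c * ext0 U l - ext0 U (l + 1)) j).eval b := by
  rw [LL_sum]
  unfold gg
  rw [eval_finsetSum]
  apply Finset.sum_congr rfl
  intro l _
  have h : ∀ l, ext0 (fun i => (U i).eval b) l = (ext0 U l).eval b := by
    intro l
    unfold ext0
    split_ifs
    · rfl
    · simp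
  rw [h, h]
  simp

end

end UniqPt
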