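import Mathlib
import Pool.Agent.LibUniqPt67.Q

/-! Surjectivity of the linearised system. -/

namespace UniqPt

open Polynomial

variable {k : Type*} [Field k]

/-- index set of the equations -/
abbrev Eq (n c : ℕ) : Type := Fin (n * (n * c) + c + 1) ⊕ Fin ((n - 1) * (c + 1))

/-- the linearised system as a linear map -/
noncomputable def TT (n c m : ℕ) (b : ℕ → k) :
    (Fin (n + 1) × Fin (n * c + 1) → k) →ₗ[k] (Eq n c → k) where
  toFun u := Sum.elim (fun a => (JJ n c u).coeff a)
    (fun f => ∑ i, LL n c ((f : ℕ) % (n - 1)) (b ((f : ℕ) / m)) i *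
      (vec u i).eval (b ((f : ℕ) / m)))
  map_add' u v := by
    have hv : ∀ i, vec (u + v) i = vec u i + vec v i := by
      intro i
      have := vec_add_mul u v 1 i
      simp only [one_mul, C_1] at this
      rw [← this]
      rfl
    funext a
    rcases a with a | a
    · simp only [Sum.elim_inl, Pi.add_apply]
      rw [← coeff_add]
      congr 1
      unfold JJ
      rw [← Finset.sum_add_distrib]
      apply Finset.sum_congr rfl
      intro j _
      rw [hv, hv]
      ring
    · simp only [Sum.elim_inr, Pi.add_apply]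
      rw [← Finset.sum_add_distrib]
      apply Finset.sum_congr rfl
      intro j _
      rw [hv, eval_add]
      ring
  map_smul' r u := by
    have hv : ∀ i, vec (r • u) i = C r * vec u i := by
      intro i
      have := vec_add_mul (0 : Fin (n + 1) × Fin (n * c + 1) → k) u r i
      have h0 : vec (0 : Fin (n + 1) × Fin (n * c + 1) → k) i = 0 := by
        unfold vec
        simp
      rw [h0, zero_add] at this
      rw [← this]
      congr 1
      funext j
      simp
    funext a
    rcases a with a | a
    · simp only [Sum.elim_inl, Pi.smul_apply, RingHom.id_apply, smul_eq_mul]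
      rw [← coeff_C_mul]
      congr 1
      unfold JJ
      rw [Finset.mul_sum]
      apply Finset.sum_congr rfl
      intro j _
      rw [hv, hv]
      ring
    · simp only [Sum.elim_inr, Pi.smul_apply, RingHom.id_apply, smul_eq_mul]
      rw [Finset.mul_sum]
      apply Finset.sum_congr rfl
      intro j _
      rw [hv, eval_mul, eval_C]
      ring

theorem TT_ker (n c m : ℕ) (hn : 1 ≤ n) (hm : 1 ≤ m) (hmn : m ≤ n - 1) (b : ℕ → k)
    (hb : Function.Injective b) (u : Fin (n + 1) × Fin (n * c + 1) → k) (hu : TT n c m b u = 0) :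
    ∃ a : k, u = a • x1 k n c := by
  classical
  set U : ℕ → k[X] := ext0 (vec u) with hU
  set f : ℕ → k[X] := fun l => X ^ c * U l - U (l + 1) with hf
  have hUdeg : ∀ i, (U i).natDegree ≤ n * c := by
    intro i
    rw [hU]
    unfold ext0
    split_ifs
    · exact vec_natDegree _ _
    · simp
  have hfdeg : ∀ i, (f i).natDegree ≤ n * c + c := by
    intro i
    refine (natDegree_sub_le _ _).trans (max_le ?_ ?_)
    · refine natDegree_mul_le.trans ?_
      rw [natDegree_X_pow]
      have := hUdeg i
      omega
    · have := hUdeg (i + 1)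
      omega
  have hJsum : JJ n c u = ∑ i ∈ Finset.range n, X ^ (n * c * i) * f i := by
    unfold JJ
    rw [← Fin.sum_univ_eq_sum_range (fun i => X ^ (n * c * i) * f i) n]
    apply Finset.sum_congr rfl
    intro j _
    have h1 : U (j : ℕ) = vec u j.castSucc := by
      rw [hU]
      unfold ext0
      rw [dif_pos (by have := j.2; omega)]
      rfl
    have h2 : U ((j : ℕ) + 1) = vec u j.succ := by
      rw [hU]
      unfold ext0
      rw [dif_pos (by have := j.2; omega)]
      rfl
    rw [hf]
    simp only
    rw [h1, h2]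
  have hJdeg : (JJ n c u).natDegree ≤ n * (n * c) + c := by
    rw [hJsum]
    apply natDegree_sum_le_of_forall_le
    intro i hi
    rw [Finset.mem_range] at hi
    refine natDegree_mul_le.trans ?_
    rw [natDegree_X_pow]
    have h1 := hfdeg i
    have h2 : n * c * i + n * c ≤ n * (n * c) := by
      calc n * c * i + n * c = n * c * (i + 1) := by ring
        _ ≤ n * c * n := Nat.mul_le_mul_left _ hi
        _ = n * (n * c) := by ring
    omega
  have hJ0 : JJ n c u = 0 := by
    ext a
    rw [coeff_zero]
    by_cases ha : a < n * (n * c) + c + 1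
    · have := congrFun hu (Sum.inl ⟨a, ha⟩)
      exact this
    · apply coeff_eq_zero_of_natDegree_lt
      omega
  have hs : ∑ i ∈ Finset.range n, X ^ (n * c * i) * f i = 0 := by
    rw [← hJsum, hJ0]
  have hroots : ∀ j, j + 1 < n → ∃ s : Finset k, s.card = c + 1 ∧
      ∀ b ∈ s, (gg n (n * c) f j).eval b = 0 := by
    intro j hj
    refine ⟨(Finset.range (c + 1)).image (fun q => b ((j + (n - 1) * q) / m)), ?_, ?_⟩
    · rw [Finset.card_image_of_injective, Finset.card_range]
      intro q q' hqq
      have h1 := hb hqq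
      by_contra hne
      have key : ∀ q q' : ℕ, q < q' →
          (j + (n - 1) * q) / m < (j + (n - 1) * q') / m := by
        intro q q' hlt
        rw [Nat.lt_iff_add_one_le, ← Nat.add_div_right _ (by omega : 0 < m)]
        apply Nat.div_le_div_right
        have h2 : (n - 1) * q + (n - 1) ≤ (n - 1) * q' := by
          calc (n - 1) * q + (n - 1) = (n - 1) * (q + 1) := by ring
            _ ≤ (n - 1) * q' := Nat.mul_le_mul_left _ hlt
        omega
      rcases Nat.lt_or_gt_of_ne hne with h2 | h2
      · exact absurd h1 (key q q' h2).ne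
      · exact absurd h1 (key q' q h2).ne'
    · intro β hβ
      rw [Finset.mem_image] at hβ
      obtain ⟨q, hq, rfl⟩ := hβ
      rw [Finset.mem_range] at hq
      have hlt : j + (n - 1) * q < (n - 1) * (c + 1) := by
        calc j + (n - 1) * q < (n - 1) + (n - 1) * q := by omega
          _ = (n - 1) * (q + 1) := by ring
          _ ≤ (n - 1) * (c + 1) := Nat.mul_le_mul_left _ hq
      have h3 := congrFun hu (Sum.inr ⟨j + (n - 1) * q, hlt⟩)
      have h4 : (j + (n - 1) * q) % (n - 1) = j := by
        rw [Nat.add_mul_mod_self_left]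
        exact Nat.mod_eq_of_lt (by omega)
      change ∑ i, LL n c ((j + (n - 1) * q) % (n - 1)) (b ((j + (n - 1) * q) / m)) i *
        (vec u i).eval (b ((j + (n - 1) * q) / m)) = 0 at h3
      rw [h4, LL_gg] at h3
      exact h3
  have hf0 := f_eq_zero n (n * c) c f hn (fun i _ => hfdeg i) hs hroots
  obtain ⟨a, ha⟩ := u_eq n c U (fun i _ => hUdeg i) (fun i hi => hf0 i hi)
  refine ⟨a, ?_⟩
  funext j
  obtain ⟨i, l⟩ := j
  have h5 := ha i (by have := i.2; omega)
  have h6 : U i = vec u i := by
    rw [hU]
    unfold ext0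
    rw [dif_pos i.2]
  have h7 : u (i, l) = (vec u i).coeff l := (vec_coeff u i l).symm
  rw [h7, ← h6, h5, coeff_C_mul]
  rfl

theorem TT_surj (n c m : ℕ) (hn : 1 ≤ n) (hm : 1 ≤ m) (hmn : m ≤ n - 1) (b : ℕ → k)
    (hb : Function.Injective b) : Function.Surjective (TT n c m b) := by
  have hker : LinearMap.ker (TT n c m b) ≤ Submodule.span k {x1 k n c} := by
    intro u hu
    obtain ⟨a, ha⟩ := TT_ker n c m hn hm hmn b hb u hu
    rw [Submodule.mem_span_singleton]
    exact ⟨a, ha.symm⟩
  have h1 : Module.finrank k (LinearMap.ker (TT n c m b)) ≤ 1 :=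
    (Submodule.finrank_mono hker).trans ((finrank_span_le_card _).trans (by simp))
  have h2 := LinearMap.finrank_range_add_finrank_ker (TT n c m b)
  have h3 : Module.finrank k (Fin (n + 1) × Fin (n * c + 1) → k) = (n + 1) * (n * c + 1) := by
    rw [Module.finrank_pi]
    simp
  have h4 : Module.finrank k (Eq n c → k) =
      (n * (n * c) + c + 1) + (n - 1) * (c + 1) := by
    rw [Module.finrank_pi]
    simp
  have h5 : (n + 1) * (n * c + 1) = (n * (n * c) + c + 1) + (n - 1) * (c + 1) + 1 := by
    obtain ⟨n', rfl⟩ : ∃ n', n = n' + 1 := ⟨n - 1, by omega⟩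
    simp only [Nat.add_sub_cancel]
    ring
  rw [← LinearMap.range_eq_top]
  apply Submodule.eq_top_of_finrank_eq
  apply le_antisymm (Submodule.finrank_le _)
  rw [h4]
  omega

end UniqPt
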