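import Mathlib
import Pool.Agent.LibUniqPt67.D
import Pool.Agent.LibUniqPt67.S
import Pool.Agent.LibUniqPt67.Loc

/-! Main theorem. -/

namespace UniqPt

open Polynomial

universe u

/-- a nonzero polynomial vector is a polynomial times a vector without common roots -/
theorem exists_primitive {k : Type*} [Field k] {n : ℕ} (D : ℕ) :
    ∀ (y : Fin (n + 1) → k[X]), y ≠ 0 → (∀ i, (y i).natDegree ≤ D) →
      ∃ (l : k[X]) (P : Fin (n + 1) → k[X]), l ≠ 0 ∧ (∀ i, y i = l * P i) ∧
        ∀ b : k, (fun i => (P i).eval b) ≠ 0 := by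
  induction D with
  | zero =>
    intro y hy hD
    refine ⟨1, y, one_ne_zero, fun i => (one_mul _).symm, fun b hb => hy ?_⟩
    funext i
    have h1 : (y i).eval b = 0 := congrFun hb i
    have h2 := eq_C_of_natDegree_le_zero (hD i)
    rw [h2, eval_C] at h1
    rw [h2, h1, C_0]
    rfl
  | succ D ih =>
    intro y hy hD
    by_cases hroot : ∃ b : k, (fun i => (y i).eval b) = 0
    · obtain ⟨b, hb⟩ := hroot
      have h1 : ∀ i, ∃ z : k[X], y i = (X - C b) * z := by
        intro i
        have h2 := congrFun hb i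
        exact dvd_iff_isRoot.mpr h2
      choose z hz using h1
      have hz0 : z ≠ 0 := by
        intro h3
        apply hy
        funext i
        rw [hz i, h3]
        simp
      have hzD : ∀ i, (z i).natDegree ≤ D := by
        intro i
        by_cases h4 : z i = 0
        · rw [h4]; simp
        · have h5 := hD i
          rw [hz i, natDegree_mul (X_sub_C_ne_zero b) h4, natDegree_X_sub_C] at h5
          omega
      obtain ⟨l, P, hl, hP, hPb⟩ := ih z hz0 hzD
      refine ⟨(X - C b) * l, P, mul_ne_zero (X_sub_C_ne_zero b) hl, fun i => ?_, hPb⟩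
      rw [hz i, hP i]; ring
    · push Not at hroot
      exact ⟨1, y, one_ne_zero, fun i => (one_mul _).symm, hroot⟩

/-- counting roots -/
theorem root_count {k : Type*} [Field k] (l : k[X]) (hl : l ≠ 0) (b : ℕ → k)
    (hb : Function.Injective b) (M S : ℕ) (h : ∀ i < S, (X - C (b i)) ^ M ∣ l) :
    M * S ≤ l.natDegree := by
  have h1 : (∏ i ∈ Finset.range S, (X - C (b i)) ^ M) ∣ l := by
    apply Finset.prod_dvd_of_coprime
    · intro i _ j _ hij
      apply IsCoprime.pow
      exact pairwise_coprime_X_sub_C hb hij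
    · intro i hi
      exact h i (Finset.mem_range.mp hi)
  have h2 := natDegree_le_of_dvd h1 hl
  rw [natDegree_prod _ _ (fun i _ => pow_ne_zero _ (X_sub_C_ne_zero _))] at h2
  simp only [natDegree_pow, natDegree_X_sub_C, mul_one, Finset.sum_const, Finset.card_range,
    smul_eq_mul] at h2
  rw [mul_comm]
  exact h2

/-- `GoodAt F N m b` : every linear subspace of codimension `≤ m` is reached. -/
def GoodAt {k : Type*} [Field k] {n : ℕ} (F : MvPolynomial (Fin (n + 1)) k[X]) (N m : ℕ) (b : k) :
    Prop :=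
  ∀ h : Fin m → Fin (n + 1) → k, ∃ P : Fin (n + 1) → k[X], (∀ i, (P i).natDegree ≤ N) ∧
    MvPolynomial.eval P F = 0 ∧ (fun i => (P i).eval b) ≠ 0 ∧
    ∃ q : Fin (n + 1) → k, q ≠ 0 ∧ (∀ j, ∑ i, h j i * q i = 0) ∧
      ∃ m' ≤ m, Chain (fib F b) m' (fun i => (P i).eval b) q

/-- a finite set can be listed first by an injective sequence -/
theorem exists_seq {k : Type*} [Infinite k] (T : Finset k) :
    ∃ b : ℕ → k, Function.Injective b ∧ ∀ i < T.card, b i ∈ T := by
  classical
  have hinf : ((T : Set k)ᶜ).Infinite := T.finite_toSet.infinite_compl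
  let g := hinf.natEmbedding
  let e := T.equivFin.symm
  refine ⟨fun i => if h : i < T.card then (e ⟨i, h⟩ : k) else (g i : k), ?_, ?_⟩
  · intro i j hij
    simp only at hij
    by_cases hi : i < T.card
    · by_cases hj : j < T.card
      · rw [dif_pos hi, dif_pos hj] at hij
        have := e.injective (Subtype.ext hij)
        simpa using this
      · rw [dif_pos hi, dif_neg hj] at hij
        exact absurd (hij ▸ (e ⟨i, hi⟩).2) (g j).2
    · by_cases hj : j < T.card
      · rw [dif_neg hi, dif_pos hj] at hij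
        exact absurd (hij ▸ (e ⟨j, hj⟩).2) (g i).2
      · rw [dif_neg hi, dif_neg hj] at hij
        exact g.injective (Subtype.ext hij)
  · intro i hi
    simp only [dif_pos hi]
    exact (e ⟨i, hi⟩).2

theorem bad_card {k : Type u} [Field k] [IsAlgClosed k] (n c m : ℕ) (hm : 1 ≤ m)
    (hmn : m ≤ n - 1) (hdvd : m ∣ c + 1) (F : MvPolynomial (Fin (n + 1)) k[X])
    (hF : F.IsHomogeneous n) (hc : ∀ d, (MvPolynomial.coeff d F).natDegree ≤ c)
    (T : Finset k) (hT : ∀ b ∈ T, ¬ GoodAt F (n * c) m b) :
    T.card * m < (n - 1) * (c + 1) := by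
  classical
  by_contra hcard
  rw [not_lt] at hcard
  have hn : 1 ≤ n := by omega
  have : Infinite k := IsAlgClosed.instInfinite
  obtain ⟨b, hb, hbT⟩ := exists_seq T
  have hbad' : ∀ i, ∃ h : Fin m → Fin (n + 1) → k, i < T.card → ∀ P : Fin (n + 1) → k[X],
      (∀ i, (P i).natDegree ≤ n * c) → MvPolynomial.eval P F = 0 →
      (fun j => (P j).eval (b i)) ≠ 0 → ∀ q : Fin (n + 1) → k, q ≠ 0 →
      (∀ j, ∑ i, h j i * q i = 0) → ∀ m' ≤ m,
      ¬ Chain (fib F (b i)) m' (fun j => (P j).eval (b i)) q := by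
    intro i
    by_cases hi : i < T.card
    · have := hT (b i) (hbT i hi)
      unfold GoodAt at this
      push Not at this
      obtain ⟨h, hh⟩ := this
      exact ⟨h, fun _ => hh⟩
    · exact ⟨0, fun h => absurd h hi⟩
  choose h hh using hbad'
  have hm0 : 0 < m := hm
  -- the system
  let f0 : Eq n c → MvPolynomial (Fin (n + 1) × Fin (n * c + 1)) k :=
    Sum.elim (fun a => E (n * c) F a)
      (fun f => lin (h ((f : ℕ) / m) ⟨(f : ℕ) % m, Nat.mod_lt _ hm0⟩) (b ((f : ℕ) / m)))
  let f1 : Eq n c → MvPolynomial (Fin (n + 1) × Fin (n * c + 1)) k :=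
    Sum.elim (fun a => E (n * c) (F1 k n c) a)
      (fun f => lin (LL n c ((f : ℕ) % (n - 1)) (b ((f : ℕ) / m))) (b ((f : ℕ) / m)))
  let d : Eq n c → ℕ := Sum.elim (fun _ => n) (fun _ => 1)
  let ν : Fin ((n - 1) * (c + 1)) → MvPolynomial (Fin (n + 1) × Fin (n * c + 1)) k :=
    fun i => lin (Pi.single 0 1) (b i)
  have hf0 : ∀ a, (f0 a).IsHomogeneous (d a) := by
    rintro (a | a)
    · exact E_homog hF a
    · exact lin_homog _ _
  have hf1 : ∀ a, (f1 a).IsHomogeneous (d a) := by
    rintro (a | a)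
    · exact E_homog (F1_homog n c) a
    · exact lin_homog _ _
  have hν : ∀ i, (ν i).IsHomogeneous 1 := fun i => lin_homog _ _
  have heval : ∀ (p : MvPolynomial (Fin (n + 1) × Fin (n * c + 1)) k)
      (z : Fin (n + 1) × Fin (n * c + 1) → k), MvPolynomial.aeval z p = MvPolynomial.eval z p := by
    intro p z
    rw [MvPolynomial.aeval_def, Algebra.algebraMap_self, MvPolynomial.eval₂_id]
  have h1 : ∀ a, MvPolynomial.eval (x1 k n c) (f1 a) = 0 := by
    rintro (a | a)
    · exact F1_x1 n c a
    · show MvPolynomial.eval (x1 k n c) (lin _ _) = 0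
      rw [← heval, lin_aeval]
      have := LL_x1 n c ((a : ℕ) % (n - 1)) (b ((a : ℕ) / m))
      rw [← this]
      apply Finset.sum_congr rfl
      intro i _
      rw [vec_x1]
      simp
  have hν1 : ∀ i, MvPolynomial.eval (x1 k n c) (ν i) ≠ 0 := by
    intro i
    show MvPolynomial.eval (x1 k n c) (lin _ _) ≠ 0
    rw [← heval, lin_aeval, Finset.sum_eq_single 0]
    · rw [vec_x1]
      simp
    · intro j _ hj
      simp [hj]
    · intro hj
      exact absurd (Finset.mem_univ _) hj
  have hβ : Nonempty (Fin ((n - 1) * (c + 1))) := by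
    refine ⟨⟨0, ?_⟩⟩
    have : 0 < n - 1 := by omega
    positivity
  have hJ : ∀ w : Eq n c → k, ∃ u : Fin (n + 1) × Fin (n * c + 1) → k, ∀ a,
      (MvPolynomial.aeval (fun i => (C (x1 k n c i) + C (u i) * X : k[X])) (f1 a)).coeff 1 =
        w a := by
    intro w
    obtain ⟨u, hu⟩ := TT_surj n c m hn hm hmn b hb w
    refine ⟨u, ?_⟩
    rintro (a | a)
    · have := congrFun hu (Sum.inl a)
      rw [← this]
      exact F1_lin n c a u
    · have := congrFun hu (Sum.inr a)
      rw [← this]
      show (MvPolynomial.aeval (fun i => (C (x1 k n c i) + C (u i) * X : k[X]))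
        (lin (LL n c ((a : ℕ) % (n - 1)) (b ((a : ℕ) / m))) (b ((a : ℕ) / m)))).coeff 1 = _
      rw [lin_aeval, finsetSum_coeff]
      show _ = ∑ i, LL n c ((a : ℕ) % (n - 1)) (b ((a : ℕ) / m)) i *
        (vec u i).eval (b ((a : ℕ) / m))
      apply Finset.sum_congr rfl
      intro i _
      have hY : vec (fun i => (C (x1 k n c i) + C (u i) * X : k[X])) i =
          X ^ (c * (i : ℕ)) + C X * (vec u i).map C := by
        have h1 := vec_add_mul (fun j => (C (x1 k n c j) : k[X])) (fun j => (C (u j) : k[X])) X i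
        rw [vec_Cx1, ← vec_map C u i] at h1
        rw [← h1]
        congr 1
        funext j
        ring
      rw [hY]
      simp only [Polynomial.algebraMap_eq, coeff_C_mul, eval_add, eval_mul, eval_pow, eval_X,
        eval_C, coeff_add, eval_map, ← C_pow, coeff_C]
      rw [mul_comm X, coeff_mul_X]
      simp
  obtain ⟨R, _, _, _, _, red, hred, hroot, η, hη, x, hx, hxν, i0, hi0⟩ :=
    degen f0 f1 d hf0 hf1 ν hν (x1 k n c) h1 hν1 hβ hJ
  -- the vector over `R`
  let y : Fin (n + 1) → R[X] := vec x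
  let Φ := Polynomial.mapRingHom (algebraMap k R)
  have hdegF : (MvPolynomial.eval₂ Φ y F).natDegree ≤ n * (n * c) + c :=
    eval₂_natDegree F hF hc y (fun i => vec_natDegree x i)
  have hdegF1 : (MvPolynomial.eval₂ Φ y (F1 k n c)).natDegree ≤ n * (n * c) + c :=
    eval₂_natDegree (F1 k n c) (F1_homog n c) (F1_natDegree n c) y (fun i => vec_natDegree x i)
  have hy : MvPolynomial.eval₂ Φ y F + C η * MvPolynomial.eval₂ Φ y (F1 k n c) = 0 := by
    ext a
    rw [coeff_add, coeff_C_mul, coeff_zero]
    by_cases ha : a < n * (n * c) + c + 1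
    · have h2 := hx (Sum.inl ⟨a, ha⟩)
      change MvPolynomial.aeval x (E (n * c) F a) +
        η * MvPolynomial.aeval x (E (n * c) (F1 k n c) a) = 0 at h2
      rw [E_aeval, E_aeval] at h2
      exact h2
    · rw [coeff_eq_zero_of_natDegree_lt (by omega), coeff_eq_zero_of_natDegree_lt (by omega)]
      simp
  -- the reduction
  let z : Fin (n + 1) → k[X] := fun i => (y i).map (red : R →+* k)
  have hz0 : z ≠ 0 := by
    intro hz
    have h2 := congrFun hz i0.1
    have h3 : (z i0.1).coeff i0.2 = red (x i0) := by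
      show ((vec x i0.1).map (red : R →+* k)).coeff i0.2 = _
      rw [coeff_map, vec_coeff]
      rfl
    rw [h2] at h3
    exact hi0 (by rw [← h3]; simp)
  have hzdeg : ∀ i, (z i).natDegree ≤ n * c := fun i =>
    natDegree_map_le.trans (vec_natDegree x i)
  have hzF : MvPolynomial.eval z F = 0 := by
    have h2 := congrArg (Polynomial.mapRingHom (red : R →+* k)) hy
    rw [map_add, map_mul, map_zero, MvPolynomial.hom_eval₂] at h2
    have h3 : Polynomial.mapRingHom (red : R →+* k) (C η) = 0 := by
      rw [Polynomial.coe_mapRingHom, map_C]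
      show C (red η) = 0
      rw [hη, C_0]
    rw [h3, zero_mul, add_zero] at h2
    have h4 : (Polynomial.mapRingHom (red : R →+* k)).comp Φ = RingHom.id k[X] := by
      show (Polynomial.mapRingHom (red : R →+* k)).comp (Polynomial.mapRingHom (algebraMap k R)) = _
      rw [Polynomial.mapRingHom_comp]
      have : (red : R →+* k).comp (algebraMap k R) = RingHom.id k := by
        ext a
        show red (algebraMap k R a) = a
        simp
      rw [this, Polynomial.mapRingHom_id]
    rw [h4, MvPolynomial.eval₂_id] at h2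
    exact h2
  obtain ⟨l, P, hl, hzP, hPb⟩ := exists_primitive (n * c) z hz0 hzdeg
  have hPF : MvPolynomial.eval P F = 0 := by
    have h2 : MvPolynomial.eval z F = l ^ n * MvPolynomial.eval P F := by
      rw [← eval_smul_homog l P hF]
      congr 2
      funext i
      exact hzP i
    rw [hzF] at h2
    rcases mul_eq_zero.mp h2.symm with h3 | h3
    · exact absurd h3 (pow_ne_zero _ hl)
    · exact h3
  have hPdeg : ∀ i, (P i).natDegree ≤ n * c := by
    intro i
    by_cases h2 : P i = 0
    · rw [h2]; simp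
    · have h3 := hzdeg i
      rw [hzP i, natDegree_mul hl h2] at h3
      omega
  -- number of points
  obtain ⟨c', hc'⟩ := hdvd
  have hS : (n - 1) * c' * m = (n - 1) * (c + 1) := by rw [hc']; ring
  -- order of `l` at the points
  have hord : ∀ i < (n - 1) * c', (X - C (b i)) ^ (m + 1) ∣ l := by
    intro i hi
    by_contra hnd
    have hlne : l ≠ 0 := hl
    obtain ⟨μ, hμ, hμ0⟩ := Polynomial.exists_eq_pow_rootMultiplicity_mul_and_not_dvd l hlne (b i)
    set ρ := rootMultiplicity (b i) l with hρ
    have hρm : ρ ≤ m := by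
      by_contra h2
      apply hnd
      rw [hμ]
      exact Dvd.dvd.mul_right (pow_dvd_pow _ (by omega)) _
    have hμb : μ.eval (b i) ≠ 0 := by
      intro h2
      exact hμ0 (dvd_iff_isRoot.mpr h2)
    have hil : i < (n - 1) * (c + 1) := by
      have : (n - 1) * c' ≤ (n - 1) * (c + 1) := by
        rw [← hS]
        exact Nat.le_mul_of_pos_right _ hm0
      omega
    obtain ⟨c1, x', hc1, hx', hq0, ρ', hρ', hch⟩ := loc red hred hroot F (F1 k n c) hF
      (F1_homog n c) η hη y hy (b i) ρ (fun j => μ * P j)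
      (by
        intro j
        show z j = _
        rw [hzP j]
        conv_lhs => rw [hμ]
        ring)
      (by
        intro h2
        apply hPb (b i)
        funext j
        have h3 := congrFun h2 j
        simp only [eval_mul, Pi.zero_apply, mul_eq_zero] at h3
        rcases h3 with h3 | h3
        · exact absurd h3 hμb
        · exact h3)
      (by
        have h2 := hxν ⟨i, hil⟩
        change MvPolynomial.aeval x (lin (Pi.single 0 1) (b i)) ≠ 0 at h2
        rw [lin_aeval, Finset.sum_eq_single 0] at h2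
        · refine ⟨0, fun h3 => h2 ?_⟩
          rw [h3, mul_zero]
        · intro j _ hj
          simp [hj]
        · intro hj
          exact absurd (Finset.mem_univ _) hj)
    let a : k := (μ.eval (b i))⁻¹
    have ha : a ≠ 0 := inv_ne_zero hμb
    have hfib : (fib F (b i)).IsHomogeneous n := hF.map _
    have hch2 := hch.smul hfib a ha
    have hPeq : a • (fun j => (μ * P j).eval (b i)) = fun j => (P j).eval (b i) := by
      funext j
      simp only [Pi.smul_apply, smul_eq_mul, eval_mul, a]
      rw [inv_mul_cancel_left₀ hμb]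
    rw [hPeq] at hch2
    have hiT : i < T.card := by
      have h2 : (n - 1) * c' ≤ T.card := by
        by_contra h3
        rw [not_le] at h3
        have h4 : T.card * m < (n - 1) * c' * m := Nat.mul_lt_mul_of_pos_right h3 hm0
        omega
      omega
    refine hh i hiT P hPdeg hPF (hPb (b i)) (a • fun j => red (x' j)) (smul_ne_zero ha hq0) ?_
      ρ' (hρ'.trans hρm) hch2
    intro j
    -- the condition
    have hlt : i * m + (j : ℕ) < (n - 1) * (c + 1) := by
      calc i * m + (j : ℕ) < i * m + m := by have := j.2; omega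
        _ = (i + 1) * m := by ring
        _ ≤ (n - 1) * c' * m := Nat.mul_le_mul_right _ hi
        _ = (n - 1) * (c + 1) := hS
    have h2 := hx (Sum.inr ⟨i * m + (j : ℕ), hlt⟩)
    have hdiv : (i * m + (j : ℕ)) / m = i := by
      rw [mul_comm, Nat.mul_add_div hm0, Nat.div_eq_of_lt j.2, add_zero]
    have hmod : (i * m + (j : ℕ)) % m = j := by
      rw [Nat.mul_add_mod_self_right, Nat.mod_eq_of_lt j.2]
    change MvPolynomial.aeval x (lin (h ((i * m + (j : ℕ)) / m)
        ⟨(i * m + (j : ℕ)) % m, Nat.mod_lt _ hm0⟩) (b ((i * m + (j : ℕ)) / m))) +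
      η * MvPolynomial.aeval x (lin (LL n c ((i * m + (j : ℕ)) % (n - 1))
        (b ((i * m + (j : ℕ)) / m))) (b ((i * m + (j : ℕ)) / m))) = 0 at h2
    have hfin : (⟨(i * m + (j : ℕ)) % m, Nat.mod_lt _ hm0⟩ : Fin m) = j := Fin.ext hmod
    rw [lin_aeval, lin_aeval, hfin, hdiv] at h2
    have h3 : c1 * ((∑ i', algebraMap k R (h i j i') * x' i') +
        η * ∑ i', algebraMap k R (LL n c ((i * m + (j : ℕ)) % (n - 1)) (b i) i') * x' i') = 0 := by
      rw [← h2, mul_add, ← mul_assoc, mul_comm c1 η, mul_assoc, Finset.mul_sum, Finset.mul_sum]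
      congr 1
      · apply Finset.sum_congr rfl
        intro i' _
        change _ = _ * (y i').eval (algebraMap k R (b i))
        rw [hx' i']
        ring
      · congr 1
        apply Finset.sum_congr rfl
        intro i' _
        change _ = _ * (y i').eval (algebraMap k R (b i))
        rw [hx' i']
        ring
    have h4 := (mul_eq_zero.mp h3).resolve_left hc1
    have h5 := congrArg red h4
    rw [map_add, map_mul, hη, zero_mul, add_zero, map_zero, map_sum] at h5
    have h6 : ∑ i', h i j i' * red (x' i') = 0 := by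
      rw [← h5]
      apply Finset.sum_congr rfl
      intro i' _
      rw [map_mul]
      simp
    have h7 : ∑ i', h i j i' * (a • fun j => red (x' j)) i' = a * ∑ i', h i j i' * red (x' i') := by
      rw [Finset.mul_sum]
      apply Finset.sum_congr rfl
      intro i' _
      simp only [Pi.smul_apply, smul_eq_mul]
      ring
    rw [h7, h6, mul_zero]
  have hcount := root_count l hl b hb (m + 1) ((n - 1) * c') hord
  have hldeg : l.natDegree ≤ n * c := by
    obtain ⟨i1, hi1⟩ : ∃ i, z i ≠ 0 := by
      by_contra h2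
      push Not at h2
      exact hz0 (funext h2)
    have h3 := hzdeg i1
    have h4 : P i1 ≠ 0 := by
      intro h5
      apply hi1
      rw [hzP i1, h5, mul_zero]
    rw [hzP i1, natDegree_mul hl h4] at h3
    omega
  -- `(m+1)(n-1)c' ≤ n c`, contradiction
  have h8 : (m + 1) * ((n - 1) * c') * m ≤ n * c * m :=
    Nat.mul_le_mul_right _ (hcount.trans hldeg)
  have h9 : (m + 1) * ((n - 1) * c') * m = (m + 1) * (n - 1) * (c + 1) := by
    calc (m + 1) * ((n - 1) * c') * m = (m + 1) * ((n - 1) * c' * m) := by ring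
      _ = (m + 1) * ((n - 1) * (c + 1)) := by rw [hS]
      _ = _ := by ring
  have h10 : n * m ≤ (m + 1) * (n - 1) := by
    obtain ⟨n', rfl⟩ : ∃ n', n = n' + 1 := ⟨n - 1, by omega⟩
    simp only [Nat.add_sub_cancel] at hmn ⊢
    nlinarith
  have h11 : n * m * (c + 1) ≤ n * c * m := by
    calc n * m * (c + 1) ≤ (m + 1) * (n - 1) * (c + 1) := Nat.mul_le_mul_right _ h10
      _ = (m + 1) * ((n - 1) * c') * m := h9.symm
      _ ≤ _ := h8
  have h12 : 0 < n * m := Nat.mul_pos (by omega) hm0
  nlinarith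

/-- proportional polynomial vectors have proportional values -/
theorem eval_prop {k : Type*} [Field k] {n : ℕ} (P Q : Fin (n + 1) → k[X]) (a c : k[X])
    (h : ∀ i, a * Q i = c * P i) (ha : a ≠ 0) (b : k) (hP : (fun i => (P i).eval b) ≠ 0)
    (hQ : (fun i => (Q i).eval b) ≠ 0) :
    ∃ r : k, r ≠ 0 ∧ r • (fun i => (Q i).eval b) = fun i => (P i).eval b := by
  have hc : c ≠ 0 := by
    intro hc
    apply hQ
    funext i
    have h1 := h i
    rw [hc, zero_mul] at h1
    rw [(mul_eq_zero.mp h1).resolve_left ha]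
    simp
  obtain ⟨a', ha', ha0⟩ := Polynomial.exists_eq_pow_rootMultiplicity_mul_and_not_dvd a ha b
  obtain ⟨c', hc', hc0⟩ := Polynomial.exists_eq_pow_rootMultiplicity_mul_and_not_dvd c hc b
  set i1 := rootMultiplicity b a
  set j1 := rootMultiplicity b c
  have ha1 : a'.eval b ≠ 0 := fun h2 => ha0 (dvd_iff_isRoot.mpr h2)
  have hc1 : c'.eval b ≠ 0 := fun h2 => hc0 (dvd_iff_isRoot.mpr h2)
  have hX : (X - C b : k[X]) ≠ 0 := X_sub_C_ne_zero b
  have heq : ∀ i, (X - C b) ^ i1 * (a' * Q i) = (X - C b) ^ j1 * (c' * P i) := by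
    intro i
    rw [← mul_assoc, ← ha', ← mul_assoc, ← hc', h i]
  have key : ∀ i, a' * Q i = c' * P i := by
    rcases lt_trichotomy i1 j1 with h2 | h2 | h2
    · exfalso
      apply hQ
      funext i
      obtain ⟨d, hd⟩ : ∃ d, j1 = i1 + 1 + d := ⟨j1 - i1 - 1, by omega⟩
      have h3 := heq i
      rw [hd, pow_add, pow_succ, mul_assoc, mul_assoc] at h3
      have h4 := mul_left_cancel₀ (pow_ne_zero _ hX) h3
      have h5 := congrArg (Polynomial.eval b) h4
      simp only [eval_mul, eval_sub, eval_X, eval_C, sub_self, zero_mul] at h5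
      exact (mul_eq_zero.mp h5).resolve_left ha1
    · intro i
      have h3 := heq i
      rw [h2] at h3
      exact mul_left_cancel₀ (pow_ne_zero _ hX) h3
    · exfalso
      apply hP
      funext i
      obtain ⟨d, hd⟩ : ∃ d, i1 = j1 + 1 + d := ⟨i1 - j1 - 1, by omega⟩
      have h3 := heq i
      rw [hd, pow_add, pow_succ, mul_assoc, mul_assoc] at h3
      have h4 := mul_left_cancel₀ (pow_ne_zero _ hX) h3
      have h5 := congrArg (Polynomial.eval b) h4
      simp only [eval_mul, eval_sub, eval_X, eval_C, sub_self, zero_mul] at h5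
      exact (mul_eq_zero.mp h5.symm).resolve_left hc1
  refine ⟨(c'.eval b)⁻¹ * a'.eval b, mul_ne_zero (inv_ne_zero hc1) ha1, ?_⟩
  funext i
  have h2 := congrArg (Polynomial.eval b) (key i)
  simp only [eval_mul] at h2
  simp only [Pi.smul_apply, smul_eq_mul]
  rw [mul_assoc, h2, inv_mul_cancel_left₀ hc1]

/-- The criterion for a further point. -/
theorem criterion {k : Type u} [Field k] [IsAlgClosed k] (n m c : ℕ) (hm : 1 ≤ m)
    (hmn : m ≤ n - 1) (hdvd : m ∣ c + 1) (F : MvPolynomial (Fin (n + 1)) k[X])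
    (hF : F.IsHomogeneous n) (hc : ∀ d, (MvPolynomial.coeff d F).natDegree ≤ c)
    (S : Set (Fin (n + 1) → k[X])) (T : Finset k) (hT : (n - 1) * (c + 1) ≤ m * T.card)
    (hS : ∀ P ∈ S, ∀ b ∈ T, (fun i => (P i).eval b) ≠ 0)
    (h : ∀ b ∈ T, ∃ L : Fin m → Fin (n + 1) → k, ∀ P ∈ S, ∀ q : Fin (n + 1) → k, q ≠ 0 →
      (∀ j, ∑ i, L j i * q i = 0) → ∀ m' ≤ m, ¬ Chain (fib F b) m' (fun i => (P i).eval b) q) :
    ∃ Q : Fin (n + 1) → k[X], Q ≠ 0 ∧ MvPolynomial.eval Q F = 0 ∧
      (∀ i, (Q i).natDegree ≤ n * c) ∧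
      ∀ P ∈ S, ∀ a b : k[X], (∀ i, a * Q i = b * P i) → a = 0 := by
  by_contra hcon
  push Not at hcon
  have hbad : ∀ b ∈ T, ¬ GoodAt F (n * c) m b := by
    intro b hb hgood
    obtain ⟨L, hL⟩ := h b hb
    obtain ⟨Q, hQdeg, hQF, hQb, q, hq, hLq, m', hm', hch⟩ := hgood L
    have hQ0 : Q ≠ 0 := by
      intro hQ
      apply hQb
      funext i
      rw [hQ]
      simp
    obtain ⟨P, hP, a, c', hac, ha⟩ := hcon Q hQ0 hQF hQdeg
    obtain ⟨r, hr, hrQ⟩ := eval_prop P Q a c' hac ha b (hS P hP b hb) hQb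
    have hfib : (fib F b).IsHomogeneous n := hF.map _
    have hch2 := hch.smul hfib r hr
    rw [hrQ] at hch2
    refine hL P hP (r • q) (smul_ne_zero hr hq) ?_ m' hm' hch2
    intro j
    have h7 : ∑ i', L j i' * (r • q) i' = r * ∑ i', L j i' * q i' := by
      rw [Finset.mul_sum]
      apply Finset.sum_congr rfl
      intro i' _
      simp only [Pi.smul_apply, smul_eq_mul]
      ring
    rw [h7, hLq j, mul_zero]
  have := bad_card n c m hm hmn hdvd F hF hc T hbad
  have h3 : m * T.card = T.card * m := mul_comm _ _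
  omega

end UniqPt
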