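import Pool.Agent.LibUniqPt67.Main

/-!
MP_407a6b_ag: a criterion for a further rational point (rational section) on hypersurfaces of
degree `n` in `P^n` over `K = k(t)`, `k` algebraically closed of any characteristic.
-/

set_option autoImplicit false

namespace Pool.Agent.Results.MP_407a6b_ag.FurtherSection

open UniqPt Polynomial

/-- Let `k` be algebraically closed, `F ∈ k[t][x_0,...,x_n]` a form of degree `n` in the `x_i` with
coefficients of degree at most `c` in `t`, `1 ≤ m ≤ n - 1`, `m ∣ c + 1`, `S` any set of polynomial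
vectors and `T` a set of at least `(n - 1)(c + 1)/m` elements of `k` at which no `P ∈ S` vanishes.
Suppose that for every `b ∈ T` there is a linear subspace `L` of codimension at most `m` of `P^n_k`
no point `q` of which is joined to a point `P(b)`, `P ∈ S`, by a chain of rational curves of total
degree at most `m` in the fibre `F_b = 0`.  Then `F = 0` has a point `Q` over `k(t)` which is not
one of the points `P ∈ S`, with coordinates of degree at most `n c`. -/
theorem result {k : Type*} [Field k] [IsAlgClosed k] (n m c : ℕ) (hm : 1 ≤ m)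
    (hmn : m ≤ n - 1) (hdvd : m ∣ c + 1) (F : MvPolynomial (Fin (n + 1)) k[X])
    (hF : F.IsHomogeneous n) (hc : ∀ d, (MvPolynomial.coeff d F).natDegree ≤ c)
    (S : Set (Fin (n + 1) → k[X])) (T : Finset k) (hT : (n - 1) * (c + 1) ≤ m * T.card)
    (hS : ∀ P ∈ S, ∀ b ∈ T, (fun i => (P i).eval b) ≠ 0)
    (h : ∀ b ∈ T, ∃ L : Fin m → Fin (n + 1) → k, ∀ P ∈ S, ∀ q : Fin (n + 1) → k, q ≠ 0 →
      (∀ j, ∑ i, L j i * q i = 0) → ∀ m' ≤ m, ¬ Chain (fib F b) m' (fun i => (P i).eval b) q) :
    ∃ Q : Fin (n + 1) → k[X], Q ≠ 0 ∧ MvPolynomial.eval Q F = 0 ∧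
      (∀ i, (Q i).natDegree ≤ n * c) ∧
      ∀ P ∈ S, ∀ a b : k[X], (∀ i, a * Q i = b * P i) → a = 0 :=
  criterion n m c hm hmn hdvd F hF hc S T hT hS h

end Pool.Agent.Results.MP_407a6b_ag.FurtherSection
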